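import Pool.Agent.H48.Tate

/-!
# Algebraic extensions
-/

set_option autoImplicit false

namespace Pool.Agent.H48

open Finset FirstOrder FirstOrder.Ring
open scoped PowerSeries

section

variable {D : Type} [CommRing D] [IsDomain D] {F : Type} [Field F] [Algebra D F]
  [IsFractionRing D F]

theorem dv_div_le_one_iff {π : D} (hπ : Prime π) (hfin : ∀ a : D, a ≠ 0 → ∃ n : ℕ, ¬ π ^ n ∣ a)
    (h : Dv (Ideal.span {π}) π) (f g : D) (hg : g ≠ 0) :
    (dvRing F h hπ.ne_zero).valuation (algebraMap D F f / algebraMap D F g) ≤ 1 ↔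
      ∀ n : ℕ, π ^ n ∣ g → π ^ n ∣ f := by
  have hd := dv_isDisc (K := F) h hπ.ne_zero
  have hv0 : (dvRing F h hπ.ne_zero).valuation (algebraMap D F π) ≠ 0 :=
    (Valuation.ne_zero_iff _).2 hd.ne_zero
  have key : ∀ a : D, a ≠ 0 → ∃ k : ℕ, (∀ n, π ^ n ∣ a ↔ n ≤ k) ∧
      (dvRing F h hπ.ne_zero).valuation (algebraMap D F a) =
        (dvRing F h hπ.ne_zero).valuation (algebraMap D F π) ^ k := by
    intro a ha
    obtain ⟨n, hn⟩ := hfin a ha
    have h1 : FiniteMultiplicity π a := ⟨n, fun h => hn ((pow_dvd_pow _ (Nat.le_succ n)).trans h)⟩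
    obtain ⟨c, hc1, hc2⟩ := h1.exists_eq_pow_mul_and_not_dvd
    refine ⟨multiplicity π a, fun m => ?_, ?_⟩
    · exact h1.pow_dvd_iff_le_multiplicity
    · conv_lhs => rw [hc1]
      rw [map_mul, map_mul, map_pow, map_pow, dv_eq_one h hπ.ne_zero (a := c), mul_one]
      rw [Ideal.mem_span_singleton]
      exact hc2
  obtain ⟨k, hk1, hk2⟩ := key g hg
  by_cases hf : f = 0
  · subst hf
    simp
  obtain ⟨l, hl1, hl2⟩ := key f hf
  have e : (dvRing F h hπ.ne_zero).valuation (algebraMap D F f / algebraMap D F g) =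
      (dvRing F h hπ.ne_zero).valuation (algebraMap D F π) ^ ((l : ℤ) - k) := by
    rw [map_div₀, hk2, hl2, zpow_sub₀ hv0, zpow_natCast, zpow_natCast]
  rw [e]
  constructor
  · intro h1 n hn
    rw [hk1] at hn
    rw [hl1]
    by_contra hcon
    push Not at hcon
    have h2 : ((l : ℤ) - k) < 0 := by omega
    have h3 := zpow_lt_zpow_right_of_lt_one₀ (zero_lt_iff.2 hv0) hd.lt_one h2
    rw [zpow_zero] at h3
    exact absurd h1 (not_le.2 h3)
  · intro h1
    have h2 : k ≤ l := (hl1 k).1 (h1 k ((hk1 k).2 le_rfl))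
    have h3 := zpow_le_zpow_of_lt_one hv0 hd.lt_one (show (0 : ℤ) ≤ (l : ℤ) - k by omega)
    rwa [zpow_zero] at h3

end

/-- Let `R` be a subring of a ring of power series and `L` an algebraic extension of its field of
fractions. The valuation ring `O` of `L` lies over the valuation of vanishing order at `c`. -/
def LiesOver {B : Type} [CommRing B] {R : Type} [CommRing R] (χ : R →+* B⟦X⟧) {L : Type} [Field L]
    (ι : R →+* L) (O : ValuationSubring L) (c : B) : Prop :=
  ∀ f g : R, g ≠ 0 → (ι f / ι g ∈ O ↔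
    ∀ n : ℕ, (PowerSeries.X - PowerSeries.C c) ^ n ∣ χ g →
      (PowerSeries.X - PowerSeries.C c) ^ n ∣ χ f)

theorem algebraic_powerSeries (B : Type) [CommRing B] [IsDomain B]
    (J : Ideal B) [IsAdicComplete J B] (R : Type) [CommRing R] (χ : R →+* B⟦X⟧)
    (hχ : Function.Injective χ) (I : Ideal R) (hI : I ≠ ⊥) [HenselianRing R I]
    (K : Type) [Field K] [Algebra R K]
    [IsFractionRing R K] (L : Type) [Field L] [Algebra K L] [Algebra.IsAlgebraic K L]
    [CompatibleRing L] (hL : NIPField L) (q : ℕ) (hq : 1 ≤ q) :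
    ∃ N : ℕ, ∀ (c : Fin N → B) (r : Fin N → R), Function.Injective c → (∀ i, c i ∈ J) →
      (∀ i, χ (r i) = PowerSeries.X - PowerSeries.C (c i)) →
      ∃ i, ∀ O : ValuationSubring L, LiesOver χ ((algebraMap K L).comp (algebraMap R K)) O (c i) →
        ∃ y : L, O.valuation y ^ q = O.valuation (algebraMap K L (algebraMap R K (r i))) := by
  have hdom : IsDomain R := hχ.isDomain
  let F := FractionRing B⟦X⟧
  have hg : Function.Injective ((algebraMap B⟦X⟧ F).comp χ) :=
    (IsFractionRing.injective B⟦X⟧ F).comp hχ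
  let ψ : K →+* F := IsFractionRing.lift hg
  have hψ : ∀ r : R, ψ (algebraMap R K r) = algebraMap B⟦X⟧ F (χ r) :=
    fun r => IsFractionRing.lift_algebraMap hg r
  obtain ⟨N, hN⟩ := few hL q hq
  refine ⟨N, fun c r hinj hmem hr => ?_⟩
  by_contra hcon
  push Not at hcon
  choose O hO hy using hcon
  let w := fun i => (dvRing F (lin_dv (hmem i)) (lin_ne_zero (hmem i))).valuation.comap ψ
  have hdisc : ∀ i, IsDisc (w i) (algebraMap R K (r i)) := by
    intro i
    have hd := dv_isDisc (K := F) (lin_dv (hmem i)) (lin_ne_zero (hmem i))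
    have e : ψ (algebraMap R K (r i)) = algebraMap B⟦X⟧ F (lin (c i)) := by
      rw [hψ, hr]
    refine ⟨?_, ?_, fun x hx => ?_⟩
    · intro h0
      rw [h0, map_zero] at e
      exact hd.ne_zero e.symm
    · rw [Valuation.comap_apply, e]
      exact hd.lt_one
    · rw [Valuation.comap_apply, Valuation.comap_apply, e]
      exact hd.exists_zpow _ (by rwa [Ne, map_eq_zero])
  have hext : ∀ i, Extends (w i) (O i).valuation := by
    intro i x
    obtain ⟨f, g, hg0, rfl⟩ := IsFractionRing.div_surjective (A := R) x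
    have hg0' : g ≠ 0 := nonZeroDivisors.ne_zero hg0
    rw [ValuationSubring.valuation_le_one_iff, map_div₀]
    have h1 := hO i f g hg0'
    rw [RingHom.comp_apply, RingHom.comp_apply] at h1
    rw [h1, Valuation.comap_apply, map_div₀, hψ, hψ]
    exact (dv_div_le_one_iff (lin_prime (hmem i)) (lin_finite (hmem i)) _ _ _ (by
      rwa [Ne, map_eq_zero_iff χ hχ])).symm
  refine hN L (show Language.ring.ElementarilyEquivalent L L from rfl) R
    ((algebraMap K L).comp (algebraMap R K))
    ((algebraMap K L).injective.comp (IsFractionRing.injective R K)) I hI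
    (rootIdeal_of_henselian I _ hq)
    (fun i => (O i).ValueGroup) (fun i => (O i).valuation) ?_ ?_ ?_ ?_
  · intro i x
    refine (hext i _).2 ?_
    rw [Valuation.comap_apply, hψ]
    exact dv_le_one _ _ _
  · intro i j hij
    refine ⟨r i, (hext i).lt_one_iff.2 (hdisc i).lt_one, (hext j).eq_one ?_⟩
    rw [Valuation.comap_apply, hψ, hr]
    apply dv_eq_one
    rw [Ideal.mem_span_singleton]
    exact lin_not_dvd (hmem j) (fun h => hij (hinj h.symm))
  · intro i x hx y hy
    exact arch_ext (algebraMap R K) (hext i) (hdisc i) x hx y hy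
  · intro i
    exact farC_of_not_pow hq _ _ (r i) (by simpa using (hdisc i).ne_zero) (hy i)

end Pool.Agent.H48
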