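import Pool.Agent.H48.Fml

/-!
# Independence patterns from an ideal with roots and valuations with incomparable centres
-/

set_option autoImplicit false

namespace Pool.Agent.H48

open Finset

variable {K : Type} [Field K] {R : Type} [CommRing R] {d : ℕ}

/-- the polynomial with coefficients `1, c 0, ..., c (d - 1)`, evaluated at `x` -/
def ev (d : ℕ) (c : Fin d → K) (x : K) : K := x ^ d + ∑ k : Fin d, c k * x ^ (d - 1 - (k : ℕ))

theorem ev_scale (c : Fin d → K) (x t : K) (ht : t ≠ 0) :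
    ev d (fun k => t ^ ((k : ℕ) + 1) * c k) x = t ^ d * ev d c (x / t) := by
  unfold ev
  rw [mul_add, Finset.mul_sum, div_pow, mul_div_cancel₀ _ (pow_ne_zero _ ht)]
  congr 1
  refine Finset.sum_congr rfl fun k _ => ?_
  have h1 : t ^ d = t ^ ((k : ℕ) + 1) * t ^ (d - 1 - (k : ℕ)) := by
    rw [← pow_add]
    congr 1
    have := k.2
    omega
  rw [h1, div_pow]
  field_simp

/-- All polynomials `X ^ d + (1 + c₀) X ^ (d - 1) + c₁ X ^ (d - 2) + ... + c_{d - 1}` with
coefficients `c_k` in the ideal `I` have a root in `K`. -/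
def RootIdeal (d : ℕ) (f : R →+* K) (I : Ideal R) : Prop :=
  ∀ c : Fin d → R, (∀ k, c k ∈ I) →
    ∃ x : K, x ^ d + x ^ (d - 1) + ∑ k : Fin d, f (c k) * x ^ (d - 1 - (k : ℕ)) = 0

section

variable {Γ : Type} [LinearOrderedCommGroupWithZero Γ]

/-- some polynomial of degree `d` over `R` is bounded away from zero -/
def FarC (d : ℕ) (f : R →+* K) (v : Valuation K Γ) : Prop :=
  ∃ (c : Fin d → R) (γ : K), γ ≠ 0 ∧
    ∀ x : K, v γ ≤ v (ev d (fun k => f (c k)) x)

theorem FarC.scale {f : R →+* K} (hf : Function.Injective f) {v : Valuation K Γ}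
    (h : FarC d f v) {I : Ideal R} (hI : I ≠ ⊥) :
    ∃ (c : Fin d → R) (γ : K), (∀ k, c k ∈ I) ∧ γ ≠ 0 ∧
      ∀ x : K, v γ ≤ v (ev d (fun k => f (c k)) x) := by
  obtain ⟨c, γ, hγ, hc⟩ := h
  obtain ⟨w, hw, hw0⟩ := Submodule.exists_mem_ne_zero_of_ne_bot hI
  have hfw : f w ≠ 0 := by
    rw [Ne, map_eq_zero_iff f hf]
    exact hw0
  refine ⟨fun k => w ^ ((k : ℕ) + 1) * c k, f w ^ d * γ, fun k => ?_,
    mul_ne_zero (pow_ne_zero _ hfw) hγ, fun x => ?_⟩
  · show w ^ ((k : ℕ) + 1) * c k ∈ I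
    rw [pow_succ', mul_assoc]
    exact Ideal.mul_mem_right _ _ hw
  · have : (fun k : Fin d => f (w ^ ((k : ℕ) + 1) * c k)) =
        fun k : Fin d => (f w) ^ ((k : ℕ) + 1) * f (c k) := by
      funext k
      rw [map_mul, map_pow]
    rw [this, ev_scale _ _ _ hfw, map_mul, map_mul]
    exact mul_le_mul_right (hc _) _

/-- the centre of `v` on `R` -/
def centre (f : R →+* K) (v : Valuation K Γ) (h : ∀ r, v (f r) ≤ 1) : Ideal R where
  carrier := {x | v (f x) < 1}
  add_mem' := by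
    intro a b ha hb
    change v _ < 1 at ha
    change v _ < 1 at hb
    change v _ < 1
    rw [map_add]
    exact v.map_add_lt ha hb
  zero_mem' := by simp
  smul_mem' := by
    intro c x hx
    change v _ < 1 at hx
    change v (f (c * x)) < 1
    rw [map_mul, map_mul]
    exact (mul_le_of_le_one_left' (h c)).trans_lt hx

theorem mem_centre {f : R →+* K} {v : Valuation K Γ} {h : ∀ r, v (f r) ≤ 1} {x : R} :
    x ∈ centre f v h ↔ v (f x) < 1 := Iff.rfl

theorem centre_prime (f : R →+* K) (v : Valuation K Γ) (h : ∀ r, v (f r) ≤ 1) :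
    (centre f v h).IsPrime := by
  refine ⟨?_, ?_⟩
  · rw [Ne, Ideal.eq_top_iff_one, mem_centre]
    simp
  · intro x y hxy
    rw [mem_centre, map_mul, map_mul] at hxy
    rw [mem_centre, mem_centre]
    by_contra hcon
    push Not at hcon
    rw [le_antisymm (h x) hcon.1, le_antisymm (h y) hcon.2] at hxy
    simp at hxy

end

section

variable {N : ℕ} {Γ : Fin N → Type} [∀ i, LinearOrderedCommGroupWithZero (Γ i)]

/-- prime avoidance -/
theorem exists_sep (f : R →+* K) (v : ∀ i, Valuation K (Γ i))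
    (h : ∀ i r, v i (f r) ≤ 1)
    (hinc : ∀ i j, i ≠ j → ∃ x : R, v i (f x) < 1 ∧ v j (f x) = 1)
    (i : Fin N) :
    ∃ x : R, v i (f x) < 1 ∧ ∀ j, j ≠ i → v j (f x) = 1 := by
  classical
  by_contra hcon
  push Not at hcon
  have h1 : ((centre f (v i) (h i) : Ideal R) : Set R) ⊆
      ⋃ j ∈ ((Finset.univ.erase i : Finset (Fin N)) : Set (Fin N)), centre f (v j) (h j) := by
    intro x hx
    obtain ⟨j, hj, hxj⟩ := hcon x hx
    simp only [Set.mem_iUnion]
    refine ⟨j, by simpa using hj, ?_⟩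
    exact lt_of_le_of_ne (h j x) hxj
  rw [Ideal.subset_union_prime i i (fun j _ _ _ => centre_prime f (v j) (h j))] at h1
  obtain ⟨j, hj, hle⟩ := h1
  have hij : i ≠ j := by
    intro e
    simp [e] at hj
  obtain ⟨x, hx1, hx2⟩ := hinc i j hij
  have := hle (show x ∈ centre f (v i) (h i) from hx1)
  rw [mem_centre, hx2] at this
  exact lt_irrefl _ this

/-- The pattern. -/
theorem pattern (hN : 2 ≤ N) (hd : 1 ≤ d) (f : R →+* K) (hf : Function.Injective f) (I : Ideal R)
    (hI : I ≠ ⊥) (hroot : RootIdeal d f I) (v : ∀ i, Valuation K (Γ i))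
    (hle : ∀ i r, v i (f r) ≤ 1)
    (hinc : ∀ i j, i ≠ j → ∃ x : R, v i (f x) < 1 ∧ v j (f x) = 1)
    (harch : ∀ (i : Fin N) (x : R), v i (f x) < 1 → ∀ y : K, y ≠ 0 →
      ∃ m : ℕ, v i (f x) ^ m ≤ v i y)
    (hfar : ∀ i, FarC d f (v i)) :
    ∃ (a : Fin N → K) (c : Finset (Fin N) → Fin d → K), ∀ i J,
      (∃ x : K, x ^ d + a i * x ^ (d - 1) +
        ∑ k : Fin d, c J k * x ^ (d - 1 - (k : ℕ)) = 0) ↔ i ∈ J := by
  classical
  choose x hx1 hx2 using exists_sep f v hle hinc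
  choose c γ hcI hγ hc using fun i => (hfar i).scale hf hI
  choose m hm using fun i => harch i (x i) (hx1 i) (γ i) (hγ i)
  obtain ⟨M, hM⟩ : ∃ M : ℕ, ∀ i, m i ≤ M :=
    ⟨∑ i, m i, fun i => Finset.single_le_sum (fun _ _ => Nat.zero_le _) (Finset.mem_univ i)⟩
  set q : ℕ := M + 1 with hq
  have hsmall : ∀ i, v i (f (x i)) ^ q < v i (γ i) := by
    intro i
    have h1 : v i (f (x i)) ^ M ≤ v i (γ i) :=
      (pow_le_pow_right_of_le_one' (hle i _) (hM i)).trans (hm i)
    have h2 : 0 < v i (γ i) :=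
      zero_lt_iff.2 ((Valuation.ne_zero_iff _).2 (hγ i))
    rw [hq, pow_succ]
    calc _ ≤ v i (γ i) * v i (f (x i)) := by gcongr
      _ < v i (γ i) * 1 := (mul_lt_mul_iff_right₀ h2).2 (hx1 i)
      _ = _ := mul_one _
  -- the elements `e`
  let e : Fin N → R := fun j => (∏ i ∈ Finset.univ.erase j, x i) ^ q
  have he1 : ∀ j, v j (f (e j)) = 1 := by
    intro j
    simp only [e]
    rw [map_pow, map_pow, map_prod, map_prod, Finset.prod_eq_one, one_pow]
    intro i hi
    exact hx2 i j (Finset.ne_of_mem_erase hi).symm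
  have he2 : ∀ j i, i ≠ j → ∃ r : R, e j = x i ^ q * r := by
    intro j i hij
    refine ⟨(∏ l ∈ (Finset.univ.erase j).erase i, x l) ^ q, ?_⟩
    simp only [e]
    rw [← mul_pow, Finset.mul_prod_erase _ _ (Finset.mem_erase.2 ⟨hij, Finset.mem_univ i⟩)]
  let cc : Finset (Fin N) → Fin d → R := fun J k =>
    ∑ j ∈ Jᶜ, e j ^ ((k : ℕ) + 1) * c j k
  refine ⟨fun i => f (x i ^ q), fun J k => f (cc J k), fun i J => ⟨?_, ?_⟩⟩
  · -- no root
    rintro ⟨z, hz⟩
    by_contra hiJ
    have hiJ' : i ∈ Jᶜ := Finset.mem_compl.2 hiJ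
    -- `z` is integral
    have hz1 : v i z ≤ 1 := by
      by_contra hlt
      push Not at hlt
      have hpos : 0 < v i z := lt_trans zero_lt_one hlt
      have h1 : z ^ d = -(f (x i ^ q) * z ^ (d - 1) +
          ∑ k : Fin d, f (cc J k) * z ^ (d - 1 - (k : ℕ))) := by
        rw [eq_neg_iff_add_eq_zero, ← add_assoc]
        exact hz
      have h2 : v i (z ^ d) ≤ v i z ^ (d - 1) := by
        rw [h1, Valuation.map_neg]
        refine (v i).map_add_le ?_ ((v i).map_sum_le fun k _ => ?_)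
        · rw [map_mul, map_pow (v i) z]
          exact mul_le_of_le_one_left' (hle i _)
        · rw [map_mul, map_pow (v i) z]
          exact (mul_le_of_le_one_left' (hle i _)).trans (pow_le_pow_right₀ hlt.le (by omega))
      rw [map_pow] at h2
      exact absurd h2 (not_le.2 (pow_lt_pow_right₀ hlt (by omega)))
    have hzp : ∀ l : ℕ, v i (z ^ l) ≤ 1 := fun l => by
      rw [map_pow]
      exact pow_le_one' hz1 l
    -- the difference
    have h3 : ev d (fun k => f (e i) ^ ((k : ℕ) + 1) * f (c i k)) z =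
        -(f (x i ^ q) * z ^ (d - 1) + ∑ k : Fin d,
          f (∑ j ∈ Jᶜ.erase i, e j ^ ((k : ℕ) + 1) * c j k) * z ^ (d - 1 - (k : ℕ))) := by
      rw [eq_neg_iff_add_eq_zero, ← hz, ev]
      have : ∀ k : Fin d, cc J k = e i ^ ((k : ℕ) + 1) * c i k +
          ∑ j ∈ Jᶜ.erase i, e j ^ ((k : ℕ) + 1) * c j k := by
        intro k
        simp only [cc]
        rw [Finset.add_sum_erase _ (fun j => e j ^ ((k : ℕ) + 1) * c j k) hiJ']
      simp only [this, map_add, add_mul, Finset.sum_add_distrib, map_mul, map_pow]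
      ring
    have h4 : v i (ev d (fun k => f (e i) ^ ((k : ℕ) + 1) * f (c i k)) z) ≤ v i (f (x i)) ^ q := by
      rw [h3, Valuation.map_neg]
      refine (v i).map_add_le ?_ ((v i).map_sum_le fun k _ => ?_)
      · rw [map_mul, map_pow f, map_pow]
        exact mul_le_of_le_one_right' (hzp _)
      · rw [map_mul, map_sum]
        refine (mul_le_of_le_one_right' (hzp _)).trans ((v i).map_sum_le fun j hj => ?_)
        obtain ⟨r, hr⟩ := he2 j i (Finset.ne_of_mem_erase hj).symm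
        rw [pow_succ', mul_assoc, hr, mul_assoc, map_mul, map_mul, map_pow, map_pow]
        exact mul_le_of_le_one_right' (hle i _)
    have h5 : f (e i) ≠ 0 := by
      intro h0
      have := he1 i
      rw [h0, map_zero] at this
      exact zero_ne_one this
    rw [ev_scale _ _ _ h5, map_mul, map_pow, he1 i, one_pow, one_mul] at h4
    exact absurd (h4.trans_lt (hsmall i)) (not_lt.2 (hc i _))
  · -- a root
    intro hiJ
    have hx0 : f (x i ^ q) ≠ 0 := by
      obtain ⟨j, hj⟩ : ∃ j : Fin N, j ≠ i := by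
        have : Nontrivial (Fin N) := Fin.nontrivial_iff_two_le.2 hN
        exact exists_ne i
      intro h0
      have := hx2 i j hj
      have h1 : v j (f (x i ^ q)) = 1 := by rw [map_pow, map_pow, this, one_pow]
      rw [h0, map_zero] at h1
      exact zero_ne_one h1
    have hr : ∀ j, j ≠ i → ∃ r : R, e j = x i ^ q * r := fun j hj => he2 j i (Ne.symm hj)
    choose! r hr using hr
    obtain ⟨y, hy⟩ := hroot (fun k => ∑ j ∈ Jᶜ, r j ^ ((k : ℕ) + 1) * c j k)
      (fun k => Ideal.sum_mem _ fun j _ => Ideal.mul_mem_left _ _ (hcI j k))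
    have hcc : ∀ k : Fin d, cc J k = (x i ^ q) ^ ((k : ℕ) + 1) *
        ∑ j ∈ Jᶜ, r j ^ ((k : ℕ) + 1) * c j k := by
      intro k
      simp only [cc]
      rw [Finset.mul_sum]
      refine Finset.sum_congr rfl fun j hj => ?_
      have hji : j ≠ i := by
        rintro rfl
        exact (Finset.mem_compl.1 hj) hiJ
      rw [hr j hji, mul_pow, mul_assoc]
    refine ⟨f (x i ^ q) * y, ?_⟩
    have h1 := ev_scale (d := d) (fun k => f (∑ j ∈ Jᶜ, r j ^ ((k : ℕ) + 1) * c j k))
      (f (x i ^ q) * y) (f (x i ^ q)) hx0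
    rw [mul_div_cancel_left₀ _ hx0] at h1
    have h2 : ev d (fun k : Fin d => f (cc J k)) (f (x i ^ q) * y) =
        f (x i ^ q) ^ d * ev d (fun k => f (∑ j ∈ Jᶜ, r j ^ ((k : ℕ) + 1) * c j k)) y := by
      rw [← h1]
      congr 1
      funext k
      rw [hcc, map_mul, map_pow]
    have h3 : (f (x i ^ q) * y) ^ d + f (x i ^ q) * (f (x i ^ q) * y) ^ (d - 1) +
        ∑ k : Fin d, f (cc J k) * (f (x i ^ q) * y) ^ (d - 1 - (k : ℕ)) =
        ev d (fun k : Fin d => f (cc J k)) (f (x i ^ q) * y) +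
          f (x i ^ q) * (f (x i ^ q) * y) ^ (d - 1) := by
      rw [ev]; ring
    rw [h3, h2, ev, mul_pow _ _ (d - 1)]
    have h4 : f (x i ^ q) * (f (x i ^ q) ^ (d - 1) * y ^ (d - 1)) =
        f (x i ^ q) ^ d * y ^ (d - 1) := by
      obtain ⟨d', rfl⟩ : ∃ d', d = d' + 1 := ⟨d - 1, by omega⟩
      rw [Nat.add_sub_cancel]
      ring
    rw [h4, ← mul_add]
    have h5 : y ^ d + ∑ k : Fin d, f (∑ j ∈ Jᶜ, r j ^ ((k : ℕ) + 1) * c j k) *
        y ^ (d - 1 - (k : ℕ)) + y ^ (d - 1) = 0 := by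
      rw [← hy]; ring
    rw [h5, mul_zero]

end

open FirstOrder FirstOrder.Ring in
/-- **Few valuations.** -/
theorem few {K : Type} [Field K] [CompatibleRing K] (hK : NIPField K) (d : ℕ) (hd : 1 ≤ d) :
    ∃ N : ℕ, ∀ (K' : Type) [Field K'] [CompatibleRing K'],
      Language.ring.ElementarilyEquivalent K K' →
      ∀ (R : Type) [CommRing R] (f : R →+* K'), Function.Injective f →
      ∀ I : Ideal R, I ≠ ⊥ → RootIdeal d f I →
      ∀ (Γ : Fin N → Type) [∀ i, LinearOrderedCommGroupWithZero (Γ i)]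
        (v : ∀ i, Valuation K' (Γ i)), (∀ i r, v i (f r) ≤ 1) →
        (∀ i j, i ≠ j → ∃ x : R, v i (f x) < 1 ∧ v j (f x) = 1) →
        (∀ (i : Fin N) (x : R), v i (f x) < 1 → ∀ y : K', y ≠ 0 →
          ∃ m : ℕ, v i (f x) ^ m ≤ v i y) →
        ¬ ∀ i, FarC d f (v i) := by
  classical
  obtain ⟨n, hn⟩ := exists_no_pattern (rootF d) hK
  refine ⟨n + 2, fun K' _ _ hKK' R _ f hf I hI hroot Γ _ v hle hinc harch hfar => ?_⟩
  obtain ⟨a, c, hac⟩ := pattern (by omega) hd f hf I hI hroot v hle hinc harch hfar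
  let ι : Fin n ↪ Fin (n + 2) := (Fin.castAddEmb 2)
  obtain ⟨i, J, hiJ⟩ := hn K' hKK' (fun i _ => a (ι i)) (fun J k => c (J.map ι) k)
  apply hiJ
  rw [realize_rootF, hac, Finset.mem_map' ι]

end Pool.Agent.H48
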