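import Pool.Agent.H48.Krull

/-!
# Henselian discrete valuation rings are definable
-/

set_option autoImplicit false

namespace Pool.Agent.H48

open Finset Polynomial FirstOrder FirstOrder.Ring FirstOrder.Language

/-- A valuation ring is definable with parameters in the language of rings. -/
def Definable {K : Type} [Field K] [CompatibleRing K] (O : ValuationSubring K) : Prop :=
  ∃ (p : ℕ) (ψ : FirstOrder.Language.ring.Formula (Fin 1 ⊕ Fin p)) (c : Fin p → K),
    ∀ x : K, x ∈ O ↔ ψ.Realize (Sum.elim (fun _ => x) c)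

/-- the formula: `Y ^ 2 + Y + c x ^ 2` has a root -/
noncomputable def sqF : Language.ring.Formula (Fin 1 ⊕ Fin 1) :=
  (BoundedFormula.ex (n := 0) (Term.bdEqual (termOfFreeCommRing
    ((FreeCommRing.of (Sum.inr 0) ^ 2 + FreeCommRing.of (Sum.inr 0) +
      FreeCommRing.of (Sum.inl (Sum.inr 0)) * FreeCommRing.of (Sum.inl (Sum.inl 0)) ^ 2 :
      FreeCommRing ((Fin 1 ⊕ Fin 1) ⊕ Fin 1)))) 0) :
    Language.ring.BoundedFormula (Fin 1 ⊕ Fin 1) 0)

theorem realize_sqF {K : Type} [Field K] [CompatibleRing K] (a c : Fin 1 → K) :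
    (sqF).Realize (Sum.elim a c) ↔ ∃ y : K, y ^ 2 + y + c 0 * a 0 ^ 2 = 0 := by
  rw [sqF, Formula.Realize, BoundedFormula.realize_ex]
  refine exists_congr fun x => ?_
  rw [BoundedFormula.realize_bdEqual, realize_termOfFreeCommRing, realize_zero]
  simp only [map_add, map_mul, map_pow, FreeCommRing.lift_of, Sum.elim_inl, Sum.elim_inr]
  rfl

section

variable {R : Type} [CommRing R]

theorem newton [IsLocalRing R] (f : R[X]) (a₀ : R) (h1 : f.eval a₀ ∈ IsLocalRing.maximalIdeal R)
    (h2 : IsUnit (f.derivative.eval a₀)) (n : ℕ) :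
    ∃ a : R, a - a₀ ∈ IsLocalRing.maximalIdeal R ∧
      f.eval a ∈ IsLocalRing.maximalIdeal R ^ (n + 1) := by
  induction n with
  | zero => exact ⟨a₀, by simp, by simpa using h1⟩
  | succ n ih =>
    obtain ⟨a, ha1, ha2⟩ := ih
    have h3 : IsUnit (f.derivative.eval a) := by
      have h4 : f.derivative.eval a - f.derivative.eval a₀ ∈ IsLocalRing.maximalIdeal R := by
        obtain ⟨z, hz⟩ := f.derivative.evalSubFactor a a₀
        rw [hz]
        exact Ideal.mul_mem_left _ _ ha1
      by_contra hcon
      have h5 : f.derivative.eval a ∈ IsLocalRing.maximalIdeal R := hcon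
      have h6 : f.derivative.eval a₀ ∈ IsLocalRing.maximalIdeal R := by
        have := Ideal.sub_mem _ h5 h4
        simpa using this
      exact h6 h2
    obtain ⟨u, hu⟩ := h3
    obtain ⟨k, hk⟩ := f.binomExpansion a (-(f.eval a * (↑u⁻¹ : R)))
    refine ⟨a + -(f.eval a * (↑u⁻¹ : R)), ?_, ?_⟩
    · have : a + -(f.eval a * (↑u⁻¹ : R)) - a₀ = (a - a₀) - f.eval a * (↑u⁻¹ : R) := by ring
      rw [this]
      refine Ideal.sub_mem _ ha1 (Ideal.mul_mem_right _ _ ?_)
      exact Ideal.pow_le_self (by omega) ha2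
    · rw [hk, ← hu]
      have e1 : f.eval a + ↑u * -(f.eval a * (↑u⁻¹ : R)) + k * (-(f.eval a * (↑u⁻¹ : R))) ^ 2 =
          f.eval a * (1 - ↑u * (↑u⁻¹ : R)) + (k * (↑u⁻¹ : R) ^ 2) * (f.eval a * f.eval a) := by
        ring
      rw [e1, Units.mul_inv, sub_self, mul_zero, zero_add]
      refine Ideal.mul_mem_left _ _ ?_
      have h6 : f.eval a * f.eval a ∈ IsLocalRing.maximalIdeal R ^ (n + 1) *
          IsLocalRing.maximalIdeal R ^ (n + 1) := Ideal.mul_mem_mul ha2 ha2
      rw [← pow_add] at h6
      exact Ideal.pow_le_pow_right (by omega) h6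

theorem henselianLocal [IsDomain R] [IsDiscreteValuationRing R] (I : Ideal R) (hI : I ≠ ⊥)
    [HenselianRing R I] : HenselianLocalRing R := by
  refine ⟨fun f hf a₀ h1 h2 => ?_⟩
  obtain ⟨ϖ, hϖ⟩ := IsDiscreteValuationRing.exists_irreducible R
  obtain ⟨n, hn⟩ := IsDiscreteValuationRing.ideal_eq_span_pow_irreducible hI hϖ
  have hm : IsLocalRing.maximalIdeal R = Ideal.span {ϖ} := hϖ.maximalIdeal_eq
  have hI2 : I = IsLocalRing.maximalIdeal R ^ n := by
    rw [hn, hm, Ideal.span_singleton_pow]
  obtain ⟨a, ha1, ha2⟩ := newton f a₀ h1 h2 n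
  have ha3 : f.eval a ∈ I := by
    rw [hI2]
    exact Ideal.pow_le_pow_right (by omega) ha2
  have h3 : IsUnit (f.derivative.eval a) := by
    have h4 : f.derivative.eval a - f.derivative.eval a₀ ∈ IsLocalRing.maximalIdeal R := by
      obtain ⟨z, hz⟩ := f.derivative.evalSubFactor a a₀
      rw [hz]
      exact Ideal.mul_mem_left _ _ ha1
    by_contra hcon
    have h5 : f.derivative.eval a ∈ IsLocalRing.maximalIdeal R := hcon
    have h6 : f.derivative.eval a₀ ∈ IsLocalRing.maximalIdeal R := by
      have := Ideal.sub_mem _ h5 h4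
      simpa using this
    exact h6 h2
  obtain ⟨b, hb1, hb2⟩ := HenselianRing.is_henselian f hf a ha3 (h3.map _)
  refine ⟨b, hb1, ?_⟩
  have hjac : I ≤ Ideal.jacobson ⊥ := HenselianRing.jac
  have h7 : b - a ∈ IsLocalRing.maximalIdeal R :=
    (hjac.trans (sInf_le ⟨bot_le, IsLocalRing.maximalIdeal.isMaximal R⟩)) hb2
  have : b - a₀ = (b - a) + (a - a₀) := by ring
  rw [this]
  exact Ideal.add_mem _ h7 ha1

theorem henselianLocal_equiv {S : Type} [CommRing S] [IsLocalRing S] (e : R ≃+* S)
    [hR : HenselianLocalRing R] : HenselianLocalRing S := by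
  refine ⟨fun f hf a₀ h1 h2 => ?_⟩
  have hev : ∀ (g : S[X]) (x : S), (g.map (e.symm : S →+* R)).eval (e.symm x) =
      e.symm (g.eval x) := by
    intro g x
    have := Polynomial.eval_map_apply (f := (e.symm : S →+* R)) (p := g) x
    simpa using this
  have h3 : (f.map (e.symm : S →+* R)).eval (e.symm a₀) ∈ IsLocalRing.maximalIdeal R := by
    rw [hev]
    intro hcon
    apply h1
    simpa using hcon.map e
  have h4 : IsUnit ((f.map (e.symm : S →+* R)).derivative.eval (e.symm a₀)) := by
    rw [Polynomial.derivative_map, hev]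
    exact h2.map e.symm
  obtain ⟨b, hb1, hb2⟩ := HenselianLocalRing.is_henselian _ (hf.map _) _ h3 h4
  refine ⟨e b, ?_, ?_⟩
  · have h5 := hev f (e b)
    rw [e.symm_apply_apply, hb1] at h5
    exact (map_eq_zero_iff _ e.symm.injective).1 h5.symm
  · intro hcon
    apply hb2
    have := hcon.map e.symm
    simpa using this

variable [IsDomain R] {K : Type} [Field K] [Algebra R K] [IsFractionRing R K]

/-- Shelah's conclusion -/
theorem shelah_of_dvr [CompatibleRing K] [IsDiscreteValuationRing R] [HenselianLocalRing R] :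
    ∃ O : ValuationSubring K, (∀ x : K, x ∈ O ↔ ∃ a : R, algebraMap R K a = x) ∧ O ≠ ⊤ ∧
      HenselianLocalRing O ∧ Definable O := by
  obtain ⟨ϖ, hϖ⟩ := IsDiscreteValuationRing.exists_irreducible R
  have hm : IsLocalRing.maximalIdeal R = Ideal.span {ϖ} := hϖ.maximalIdeal_eq
  have hdv : Dv (IsLocalRing.maximalIdeal R) ϖ := by
    refine ⟨(IsLocalRing.maximalIdeal.isMaximal R).isPrime, ?_, fun a ha => ?_⟩
    · rw [hm]
      exact Ideal.mem_span_singleton_self _
    · obtain ⟨n, u, hu⟩ := IsDiscreteValuationRing.eq_unit_mul_pow_irreducible ha hϖ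
      refine ⟨n, u, 1, ?_, ?_, by rw [mul_one, hu]⟩
      · intro h
        exact h u.isUnit
      · intro h
        exact h isUnit_one
  have hmem : ∀ x : K, x ∈ dvRing K hdv hϖ.ne_zero ↔ ∃ a : R, algebraMap R K a = x := by
    intro x
    rw [mem_dvRing]
    constructor
    · rintro ⟨a, s, hs, hx⟩
      have hs' : IsUnit s := by
        by_contra hcon
        exact hs hcon
      obtain ⟨u, rfl⟩ := hs'
      refine ⟨a * (↑u⁻¹ : R), ?_⟩
      rw [map_mul, ← hx, mul_assoc, ← map_mul, Units.mul_inv, map_one, mul_one]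
    · rintro ⟨a, rfl⟩
      exact ⟨a, 1, fun h => h isUnit_one, by simp⟩
  set O := dvRing K hdv hϖ.ne_zero with hO
  have hd := dv_isDisc (K := K) hdv hϖ.ne_zero
  let e0 : R →+* O := (algebraMap R K).codRestrict O.toSubring fun a => (hmem _).2 ⟨a, rfl⟩
  have he0 : Function.Bijective e0 := by
    constructor
    · intro a b hab
      exact IsFractionRing.injective R K (congrArg Subtype.val hab)
    · rintro ⟨x, hx⟩
      obtain ⟨a, ha⟩ := (hmem x).1 hx
      exact ⟨a, Subtype.ext ha⟩
  refine ⟨O, hmem, ?_, henselianLocal_equiv (RingEquiv.ofBijective e0 he0), 1, sqF,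
    fun _ => algebraMap R K ϖ, fun x => ?_⟩
  · intro htop
    have h1 : (algebraMap R K ϖ)⁻¹ ∈ O := by rw [htop]; trivial
    obtain ⟨a, ha⟩ := (hmem _).1 h1
    have h2 : a * ϖ = 1 := by
      apply IsFractionRing.injective R K
      rw [map_mul, ha, inv_mul_cancel₀ hd.ne_zero, map_one]
    exact hϖ.not_isUnit (IsUnit.of_mul_eq_one a (by rw [mul_comm]; exact h2))
  · rw [realize_sqF]
    set v := O.valuation with hv
    have hπ0 : v (algebraMap R K ϖ) ≠ 0 := (Valuation.ne_zero_iff _).2 hd.ne_zero
    constructor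
    · intro hx
      obtain ⟨a, rfl⟩ := (hmem x).1 hx
      let g : R[X] := X ^ 2 + (X + C (ϖ * a ^ 2))
      have hg : g.Monic := by
        apply Polynomial.monic_X_pow_add
        refine lt_of_le_of_lt (Polynomial.degree_add_le _ _) (max_lt ?_ ?_)
        · exact lt_of_le_of_lt Polynomial.degree_X_le (by norm_num)
        · exact lt_of_le_of_lt Polynomial.degree_C_le (by norm_num)
      have h1 : g.eval 0 ∈ IsLocalRing.maximalIdeal R := by
        have : g.eval 0 = ϖ * a ^ 2 := by simp [g]
        rw [this, hm]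
        exact Ideal.mul_mem_right _ _ (Ideal.mem_span_singleton_self _)
      have h2 : IsUnit (g.derivative.eval 0) := by
        have : g.derivative.eval 0 = 1 := by
          simp only [g, derivative_add, derivative_X_pow, derivative_X, derivative_C]
          simp
        rw [this]
        exact isUnit_one
      obtain ⟨b, hb, -⟩ := HenselianLocalRing.is_henselian g hg 0 h1 h2
      refine ⟨algebraMap R K b, ?_⟩
      have h3 : b ^ 2 + (b + ϖ * a ^ 2) = 0 := by simpa [g] using hb
      have h4 := congrArg (algebraMap R K) h3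
      simp only [map_add, map_mul, map_pow, map_zero] at h4
      rw [← h4]
      ring
    · rintro ⟨y, hy⟩
      rw [← ValuationSubring.valuation_le_one_iff]
      by_contra hlt
      push Not at hlt
      have hx0 : x ≠ 0 := by
        rintro rfl
        rw [map_zero] at hlt
        exact not_lt_zero hlt
      obtain ⟨n, hn⟩ := hd.exists_zpow x hx0
      have hy1 : y ^ 2 + y = -(algebraMap R K ϖ * x ^ 2) := by
        rw [eq_neg_iff_add_eq_zero]
        exact hy
      have hval : v (y ^ 2 + y) = v (algebraMap R K ϖ) ^ (1 + 2 * n) := by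
        rw [hy1, Valuation.map_neg, map_mul, map_pow, hn, ← zpow_natCast (_ ^ n), ← zpow_mul,
          mul_comm n, zpow_add₀ hπ0, zpow_one]
        rfl
      have hn1 : n < 0 := by
        by_contra hcon
        push Not at hcon
        have := zpow_le_zpow_of_lt_one hπ0 hd.lt_one hcon
        rw [zpow_zero, ← hn] at this
        exact absurd hlt (not_lt.2 this)
      have h1 : (1 : O.ValueGroup) < v (y ^ 2 + y) := by
        rw [hval]
        have := zpow_lt_zpow_right_of_lt_one₀ (zero_lt_iff.2 hπ0) hd.lt_one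
          (show (1 + 2 * n) < 0 by omega)
        rwa [zpow_zero] at this
      rcases le_or_gt (v y) 1 with hy2 | hy2
      · have h2 : v (y ^ 2 + y) ≤ 1 := by
          refine v.map_add_le ?_ hy2
          rw [map_pow]
          exact pow_le_one' hy2 2
        exact absurd h1 (not_lt.2 h2)
      · have h2 : v y < v (y ^ 2) := by
          rw [map_pow, pow_two]
          exact lt_mul_of_one_lt_left (lt_trans zero_lt_one hy2) hy2
        rw [Valuation.map_add_eq_of_lt_left _ h2, map_pow] at hval
        have hy0 : y ≠ 0 := by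
          rintro rfl
          rw [map_zero] at hy2
          exact not_lt_zero hy2
        obtain ⟨m, hm'⟩ := hd.exists_zpow y hy0
        rw [hm', ← zpow_natCast, ← zpow_mul] at hval
        have := zpow_inj hπ0 hd.lt_one hval
        push_cast at this
        omega

end

end Pool.Agent.H48
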