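import Pool.Agent.H48.Core

/-!
# Discrete valuations
-/

set_option autoImplicit false

namespace Pool.Agent.H48

open Finset Polynomial

section basic

variable {K : Type} [Field K] {Γ : Type} [LinearOrderedCommGroupWithZero Γ]

/-- `v` is discrete on the subfield generated by the image, with the value of `π` as generator. -/
structure IsDisc (v : Valuation K Γ) (π : K) : Prop where
  ne_zero : π ≠ 0
  lt_one : v π < 1
  exists_zpow : ∀ x : K, x ≠ 0 → ∃ n : ℤ, v x = v π ^ n

theorem zpow_inj {a : Γ} (h0 : a ≠ 0) (h1 : a < 1) {m n : ℤ} (h : a ^ m = a ^ n) : m = n := by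
  have h2 : (0 : Γ) < a := zero_lt_iff.2 h0
  rcases lt_trichotomy m n with hl | hl | hl
  · exact absurd h (ne_of_gt (zpow_lt_zpow_right_of_lt_one₀ h2 h1 hl))
  · exact hl
  · exact absurd h (ne_of_lt (zpow_lt_zpow_right_of_lt_one₀ h2 h1 hl))

theorem zpow_le_zpow_of_lt_one {a : Γ} (h0 : a ≠ 0) (h1 : a < 1) {m n : ℤ} (h : m ≤ n) :
    a ^ n ≤ a ^ m := by
  have h2 : (0 : Γ) < a := zero_lt_iff.2 h0
  rcases eq_or_lt_of_le h with rfl | hl
  · exact le_rfl
  · exact (zpow_lt_zpow_right_of_lt_one₀ h2 h1 hl).le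

theorem arch_of_torsion {v : Valuation K Γ} {π : K} (h0 : π ≠ 0) (h1 : v π < 1)
    {x : K} (hx : ∃ n : ℕ, 1 ≤ n ∧ v x = v π ^ n) {y : K}
    (hy : ∃ (k : ℕ) (n : ℤ), 1 ≤ k ∧ v y ^ k = v π ^ n) :
    ∃ m : ℕ, v x ^ m ≤ v y := by
  obtain ⟨n, hn, hxn⟩ := hx
  obtain ⟨k, l, hk, hkl⟩ := hy
  have hπ0 : v π ≠ 0 := (Valuation.ne_zero_iff _).2 h0
  rcases le_or_gt 1 (v y) with h | h
  · exact ⟨0, by simpa using h⟩
  refine ⟨l.toNat, ?_⟩
  have h3 : v y ^ k ≤ v y := by
    obtain ⟨k', rfl⟩ : ∃ k', k = k' + 1 := ⟨k - 1, by omega⟩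
    rw [pow_succ]
    exact mul_le_of_le_one_left' (pow_le_one' h.le _)
  refine le_trans ?_ h3
  rw [hkl, hxn, ← pow_mul, ← zpow_natCast]
  apply zpow_le_zpow_of_lt_one hπ0 h1
  have h4 : l ≤ (l.toNat : ℤ) := Int.self_le_toNat l
  have h5 : (l.toNat : ℤ) ≤ ((n * l.toNat : ℕ) : ℤ) := by
    have : l.toNat ≤ n * l.toNat := Nat.le_mul_of_pos_left _ hn
    exact_mod_cast this
  exact h4.trans h5

/-- `X ^ q - π` is bounded away from zero if the value of `π` is not a `q`-th power. -/
theorem farC_of_not_pow {R : Type} [CommRing R] {q : ℕ} (hq : 1 ≤ q) (f : R →+* K)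
    (v : Valuation K Γ) (r : R) (hr : f r ≠ 0) (h : ∀ y : K, v y ^ q ≠ v (f r)) :
    FarC q f v := by
  classical
  refine ⟨fun k => if (k : ℕ) = q - 1 then -r else 0, f r, hr, fun x => ?_⟩
  have h1 : ev q (fun k : Fin q => f (if (k : ℕ) = q - 1 then -r else 0)) x = x ^ q - f r := by
    rw [ev, Finset.sum_eq_single (⟨q - 1, by omega⟩ : Fin q)]
    · simp [sub_eq_add_neg]
    · intro b _ hb
      have : (b : ℕ) ≠ q - 1 := fun h => hb (Fin.ext h)
      simp [this]
    · intro hcon
      exact absurd (Finset.mem_univ _) hcon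
  rw [h1]
  have h2 : v (x ^ q) ≠ v (f r) := by
    rw [map_pow]
    exact h x
  rw [← Valuation.map_neg v (f r)] at h2 ⊢
  rw [sub_eq_add_neg, Valuation.map_add_of_distinct_val _ h2]
  exact le_max_right _ _

end basic

section localization

variable {R : Type} [CommRing R] [IsDomain R]

/-- `r` generates the prime ideal `p` of `R` locally and all elements are powers of `r` up to
elements outside `p`. -/
structure Dv (p : Ideal R) (r : R) : Prop where
  prime : p.IsPrime
  mem : r ∈ p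
  exists_pow : ∀ a : R, a ≠ 0 → ∃ (n : ℕ) (w t : R), w ∉ p ∧ t ∉ p ∧ a * t = w * r ^ n

variable {p : Ideal R} {r : R} {K : Type} [Field K] [Algebra R K] [IsFractionRing R K]

theorem Dv.ne_zero (h : Dv p r) (hp : p ≠ ⊥) : r ≠ 0 := by
  rintro rfl
  obtain ⟨a, ha, ha0⟩ := Submodule.exists_mem_ne_zero_of_ne_bot hp
  obtain ⟨n, w, t, hw, ht, hat⟩ := h.exists_pow a ha0
  rcases Nat.eq_zero_or_pos n with hn | hn
  · subst hn
    apply hw
    have : w = a * t := by rw [hat]; ring
    rw [this]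
    exact p.mul_mem_right _ ha
  · rw [zero_pow (by omega), mul_zero] at hat
    rcases mul_eq_zero.1 hat with h1 | h1
    · exact ha0 h1
    · exact ht (h1 ▸ p.zero_mem)

/-- the valuation ring of `Dv` -/
def dvRing (K : Type) [Field K] [Algebra R K] [IsFractionRing R K] (h : Dv p r) (hr : r ≠ 0) :
    ValuationSubring K where
  carrier := {x | ∃ a s : R, s ∉ p ∧ x * algebraMap R K s = algebraMap R K a}
  mul_mem' := by
    rintro x y ⟨a, s, hs, hx⟩ ⟨b, t, ht, hy⟩
    refine ⟨a * b, s * t, fun hst => (h.prime.mem_or_mem hst).elim hs ht, ?_⟩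
    rw [map_mul, map_mul, ← hx, ← hy]
    ring
  one_mem' := ⟨1, 1, fun h1 => h.prime.ne_top ((Ideal.eq_top_iff_one _).2 h1), by simp⟩
  add_mem' := by
    rintro x y ⟨a, s, hs, hx⟩ ⟨b, t, ht, hy⟩
    refine ⟨a * t + b * s, s * t, fun hst => (h.prime.mem_or_mem hst).elim hs ht, ?_⟩
    rw [map_add, map_mul, map_mul, map_mul, ← hx, ← hy]
    ring
  zero_mem' := ⟨0, 1, fun h1 => h.prime.ne_top ((Ideal.eq_top_iff_one _).2 h1), by simp⟩
  neg_mem' := by
    rintro x ⟨a, s, hs, hx⟩
    exact ⟨-a, s, hs, by rw [map_neg, ← hx]; ring⟩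
  mem_or_inv_mem' := by
    intro x
    obtain ⟨a, b, hb, rfl⟩ := IsFractionRing.div_surjective (A := R) x
    have hb0 : b ≠ 0 := nonZeroDivisors.ne_zero hb
    have hbK : algebraMap R K b ≠ 0 := by
      rwa [Ne, FaithfulSMul.algebraMap_eq_zero_iff]
    have hrK : algebraMap R K r ≠ 0 := by
      rwa [Ne, FaithfulSMul.algebraMap_eq_zero_iff]
    by_cases ha0 : a = 0
    · left
      refine ⟨0, 1, fun h1 => h.prime.ne_top ((Ideal.eq_top_iff_one _).2 h1), by simp [ha0]⟩
    have haK : algebraMap R K a ≠ 0 := by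
      rwa [Ne, FaithfulSMul.algebraMap_eq_zero_iff]
    obtain ⟨n, w, t, hw, ht, hat⟩ := h.exists_pow a ha0
    obtain ⟨m, w', t', hw', ht', hbt⟩ := h.exists_pow b hb0
    have hat' := congrArg (algebraMap R K) hat
    have hbt' := congrArg (algebraMap R K) hbt
    simp only [map_mul, map_pow] at hat' hbt'
    rcases le_total m n with hmn | hmn
    · left
      refine ⟨w * t' * r ^ (n - m), w' * t, fun hst => (h.prime.mem_or_mem hst).elim hw' ht, ?_⟩
      have hrm : algebraMap R K r ^ m ≠ 0 := pow_ne_zero _ hrK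
      apply mul_right_cancel₀ hrm
      simp only [map_mul, map_pow]
      have h1 : algebraMap R K r ^ (n - m) * algebraMap R K r ^ m = algebraMap R K r ^ n := by
        rw [← pow_add, Nat.sub_add_cancel hmn]
      calc _ = algebraMap R K a / algebraMap R K b * algebraMap R K t *
            (algebraMap R K w' * algebraMap R K r ^ m) := by ring
        _ = (algebraMap R K a * algebraMap R K t) * algebraMap R K t' := by
            rw [← hbt']; field_simp
        _ = algebraMap R K w * algebraMap R K r ^ n * algebraMap R K t' := by rw [hat']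
        _ = _ := by rw [← h1]; ring
    · right
      refine ⟨w' * t * r ^ (m - n), w * t', fun hst => (h.prime.mem_or_mem hst).elim hw ht', ?_⟩
      have hrm : algebraMap R K r ^ n ≠ 0 := pow_ne_zero _ hrK
      apply mul_right_cancel₀ hrm
      simp only [map_mul, map_pow]
      have h1 : algebraMap R K r ^ (m - n) * algebraMap R K r ^ n = algebraMap R K r ^ m := by
        rw [← pow_add, Nat.sub_add_cancel hmn]
      calc _ = algebraMap R K b / algebraMap R K a * algebraMap R K t' *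
            (algebraMap R K w * algebraMap R K r ^ n) := by rw [inv_div]; ring
        _ = (algebraMap R K b * algebraMap R K t') * algebraMap R K t := by
            rw [← hat']; field_simp
        _ = algebraMap R K w' * algebraMap R K r ^ m * algebraMap R K t := by rw [hbt']
        _ = _ := by rw [← h1]; ring

theorem mem_dvRing {h : Dv p r} {hr : r ≠ 0} {x : K} : x ∈ dvRing K h hr ↔
    ∃ a s : R, s ∉ p ∧ x * algebraMap R K s = algebraMap R K a := Iff.rfl

theorem dv_le_one (h : Dv p r) (hr : r ≠ 0) (a : R) :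
    (dvRing K h hr).valuation (algebraMap R K a) ≤ 1 := by
  rw [ValuationSubring.valuation_le_one_iff, mem_dvRing]
  exact ⟨a, 1, fun h1 => h.prime.ne_top ((Ideal.eq_top_iff_one _).2 h1), by simp⟩

theorem dv_eq_one (h : Dv p r) (hr : r ≠ 0) {a : R} (ha : a ∉ p) :
    (dvRing K h hr).valuation (algebraMap R K a) = 1 := by
  have ha0 : a ≠ 0 := fun h0 => ha (h0 ▸ p.zero_mem)
  have haK : algebraMap R K a ≠ 0 := by
    rwa [Ne, FaithfulSMul.algebraMap_eq_zero_iff]
  apply le_antisymm (dv_le_one h hr a)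
  have h1 : (dvRing K h hr).valuation (algebraMap R K a)⁻¹ ≤ 1 := by
    rw [ValuationSubring.valuation_le_one_iff, mem_dvRing]
    exact ⟨1, a, ha, by rw [inv_mul_cancel₀ haK, map_one]⟩
  rw [map_inv₀] at h1
  have h2 : (dvRing K h hr).valuation (algebraMap R K a) ≠ 0 := (Valuation.ne_zero_iff _).2 haK
  exact (inv_le_one₀ (zero_lt_iff.2 h2)).1 h1

theorem dv_lt_one (h : Dv p r) (hr : r ≠ 0) :
    (dvRing K h hr).valuation (algebraMap R K r) < 1 := by
  rcases (dv_le_one (K := K) h hr r).lt_or_eq with h1 | h1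
  · exact h1
  exfalso
  have hrK : algebraMap R K r ≠ 0 := by
    rwa [Ne, FaithfulSMul.algebraMap_eq_zero_iff]
  have h2 : (dvRing K h hr).valuation (algebraMap R K r)⁻¹ ≤ 1 := by
    rw [map_inv₀, h1, inv_one]
  rw [ValuationSubring.valuation_le_one_iff, mem_dvRing] at h2
  obtain ⟨a, s, hs, has⟩ := h2
  apply hs
  have : algebraMap R K s = algebraMap R K (a * r) := by
    rw [map_mul, ← has]
    field_simp
  rw [IsFractionRing.injective R K this]
  exact p.mul_mem_left _ h.mem

theorem dv_pow (h : Dv p r) (hr : r ≠ 0) {a : R} (ha : a ≠ 0) :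
    ∃ n : ℕ, (dvRing K h hr).valuation (algebraMap R K a) =
      (dvRing K h hr).valuation (algebraMap R K r) ^ n ∧ (a ∈ p → 1 ≤ n) := by
  obtain ⟨n, w, t, hw, ht, hat⟩ := h.exists_pow a ha
  refine ⟨n, ?_, fun hap => ?_⟩
  · have hat' := congrArg (fun x => (dvRing K h hr).valuation (algebraMap R K x)) hat
    simp only [map_mul, map_pow] at hat'
    rw [dv_eq_one h hr hw, dv_eq_one h hr ht, mul_one, one_mul] at hat'
    exact hat'
  · by_contra hn
    have hn0 : n = 0 := by omega
    subst hn0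
    apply hw
    have : w = a * t := by rw [hat]; ring
    rw [this]
    exact p.mul_mem_right _ hap

theorem dv_lt_one_iff (h : Dv p r) (hr : r ≠ 0) (a : R) :
    (dvRing K h hr).valuation (algebraMap R K a) < 1 ↔ a ∈ p := by
  constructor
  · intro h1
    by_contra h2
    rw [dv_eq_one h hr h2] at h1
    exact lt_irrefl _ h1
  · intro ha
    by_cases h0 : a = 0
    · subst h0
      simp
    obtain ⟨n, h1, h2⟩ := dv_pow (K := K) h hr h0
    rw [h1]
    exact pow_lt_one₀ zero_le (dv_lt_one h hr) (by have := h2 ha; omega)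

theorem dv_isDisc (h : Dv p r) (hr : r ≠ 0) :
    IsDisc (dvRing K h hr).valuation (algebraMap R K r) := by
  have hrK : algebraMap R K r ≠ 0 := by
    rwa [Ne, FaithfulSMul.algebraMap_eq_zero_iff]
  refine ⟨hrK, dv_lt_one h hr, fun x hx => ?_⟩
  obtain ⟨a, b, hb, rfl⟩ := IsFractionRing.div_surjective (A := R) x
  have hb0 : b ≠ 0 := nonZeroDivisors.ne_zero hb
  have ha0 : a ≠ 0 := by
    rintro rfl
    simp at hx
  obtain ⟨n, hn, -⟩ := dv_pow (K := K) h hr ha0
  obtain ⟨m, hm, -⟩ := dv_pow (K := K) h hr hb0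
  refine ⟨(n : ℤ) - m, ?_⟩
  rw [map_div₀, hn, hm, zpow_sub₀ ((Valuation.ne_zero_iff _).2 hrK), zpow_natCast, zpow_natCast]

end localization

end Pool.Agent.H48
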