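import Pool.Agent.H48.Disc

/-!
# Extensions of discrete valuations to algebraic extensions
-/

set_option autoImplicit false

namespace Pool.Agent.H48

open Finset Polynomial

section

variable {L : Type} [Field L] {Γ : Type} [LinearOrderedCommGroupWithZero Γ]

/-- if a sum of nonzero elements is zero then two of them have the same value -/
theorem exists_eq_of_sum_eq_zero {ι : Type} [DecidableEq ι] (v : Valuation L Γ) (s : Finset ι)
    (hs : s.Nonempty) (t : ι → L) (ht : ∀ i ∈ s, t i ≠ 0) (hsum : ∑ i ∈ s, t i = 0) :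
    ∃ i ∈ s, ∃ j ∈ s, i ≠ j ∧ v (t i) = v (t j) := by
  by_contra hcon
  push Not at hcon
  obtain ⟨j, hj, hmax⟩ := s.exists_max_image (fun i => v (t i)) hs
  have h1 : v (∑ i ∈ s, t i) = v (t j) := by
    apply Valuation.map_sum_eq_of_lt (j := j)
    · exact hj
    · intro i hi
      rw [Finset.mem_sdiff, Finset.mem_singleton] at hi
      exact lt_of_le_of_ne (hmax i hi.1) (fun h => hcon i hi.1 j hj hi.2 h)
  rw [hsum, map_zero] at h1
  exact ht j hj ((Valuation.zero_iff v).1 h1.symm)

end

section ext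

variable {K L : Type} [Field K] [Field L] [Algebra K L] {Γ Δ : Type}
  [LinearOrderedCommGroupWithZero Γ] [LinearOrderedCommGroupWithZero Δ]

/-- `v` extends `w` -/
def Extends (w : Valuation K Γ) (v : Valuation L Δ) : Prop :=
  ∀ x : K, v (algebraMap K L x) ≤ 1 ↔ w x ≤ 1

theorem exists_extends (L : Type) [Field L] [Algebra K L] (w : Valuation K Γ) :
    ∃ B : ValuationSubring L, Extends w B.valuation := by
  obtain ⟨A, hA, hloc⟩ := IsLocalRing.exists_factor_valuationRing
    ((algebraMap K L).comp w.valuationSubring.subtype)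
  refine ⟨A, fun x => ?_⟩
  rw [ValuationSubring.valuation_le_one_iff]
  constructor
  · intro hx
    by_contra hlt
    push Not at hlt
    have hx0 : x ≠ 0 := by
      rintro rfl
      rw [map_zero] at hlt
      exact not_lt_zero hlt
    have hinv : w x⁻¹ < 1 := by
      rw [map_inv₀]
      exact inv_lt_one_of_one_lt₀ hlt
    let y : w.valuationSubring := ⟨x⁻¹, hinv.le⟩
    have h1 : IsUnit ((((algebraMap K L).comp w.valuationSubring.subtype).codRestrict _ hA) y) := by
      refine IsUnit.of_mul_eq_one (⟨algebraMap K L x, hx⟩ : A.toSubring) ?_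
      apply Subtype.ext
      show algebraMap K L x⁻¹ * algebraMap K L x = 1
      rw [← map_mul, inv_mul_cancel₀ hx0, map_one]
    have h2 : IsUnit y := hloc.map_nonunit y h1
    obtain ⟨u, hu⟩ := h2
    have h3 : w ((u : w.valuationSubring) : K) = 1 := by
      apply le_antisymm (u : w.valuationSubring).2
      have h4 : w (((u⁻¹ : w.valuationSubringˣ) : w.valuationSubring) : K) ≤ 1 :=
        ((u⁻¹ : w.valuationSubringˣ) : w.valuationSubring).2
      have h5 : w ((u : w.valuationSubring) : K) *
          w (((u⁻¹ : w.valuationSubringˣ) : w.valuationSubring) : K) = 1 := by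
        rw [← map_mul]
        have : ((u : w.valuationSubring) : K) *
          (((u⁻¹ : w.valuationSubringˣ) : w.valuationSubring) : K) = 1 := by
          exact congrArg (fun z : w.valuationSubring => (z : K)) u.mul_inv
        rw [this, map_one]
      rw [← h5]
      exact mul_le_of_le_one_right' h4
    rw [hu] at h3
    exact absurd h3 hinv.ne
  · intro hx
    exact hA (⟨x, hx⟩ : w.valuationSubring)

theorem Extends.eq_one {w : Valuation K Γ} {v : Valuation L Δ} (h : Extends w v) {x : K}
    (hx : w x = 1) : v (algebraMap K L x) = 1 := by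
  have hx0 : x ≠ 0 := by
    rintro rfl
    rw [map_zero] at hx
    exact zero_ne_one hx
  apply le_antisymm ((h x).2 hx.le)
  have h1 := (h x⁻¹).2 (by rw [map_inv₀, hx, inv_one])
  rw [map_inv₀, map_inv₀] at h1
  have h2 : v (algebraMap K L x) ≠ 0 := (Valuation.ne_zero_iff _).2 (by simpa using hx0)
  exact (inv_le_one₀ (zero_lt_iff.2 h2)).1 h1

theorem Extends.lt_one_iff {w : Valuation K Γ} {v : Valuation L Δ} (h : Extends w v) {x : K} :
    v (algebraMap K L x) < 1 ↔ w x < 1 := by
  constructor
  · intro h1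
    rcases ((h x).1 h1.le).lt_or_eq with h2 | h2
    · exact h2
    · rw [h.eq_one h2] at h1
      exact absurd h1 (lt_irrefl _)
  · intro h1
    rcases ((h x).2 h1.le).lt_or_eq with h2 | h2
    · exact h2
    · exfalso
      have hx0 : x ≠ 0 := by
        rintro rfl
        rw [map_zero, map_zero] at h2
        exact zero_ne_one h2
      have h3 := (h x⁻¹).1 (by rw [map_inv₀, map_inv₀, h2, inv_one])
      rw [map_inv₀] at h3
      have h4 : w x ≠ 0 := (Valuation.ne_zero_iff _).2 hx0
      exact absurd ((inv_le_one₀ (zero_lt_iff.2 h4)).1 h3) (not_le.2 h1)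

theorem Extends.zpow {w : Valuation K Γ} {v : Valuation L Δ} (h : Extends w v) {π x : K}
    (hπ : π ≠ 0) {n : ℤ} (hx : w x = w π ^ n) :
    v (algebraMap K L x) = v (algebraMap K L π) ^ n := by
  have h1 : w (x / π ^ n) = 1 := by
    rw [map_div₀, map_zpow₀, hx, div_self]
    exact zpow_ne_zero _ ((Valuation.ne_zero_iff _).2 hπ)
  have h2 := h.eq_one h1
  rw [map_div₀, map_zpow₀, map_div₀, map_zpow₀, div_eq_one_iff_eq] at h2
  · exact h2
  · exact zpow_ne_zero _ ((Valuation.ne_zero_iff _).2 (by simpa using hπ))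

/-- ramification: if the value of `π` is a `q`-th power then `q` is at most the degree. -/
theorem le_finrank [FiniteDimensional K L] {w : Valuation K Γ} {v : Valuation L Δ}
    (h : Extends w v) {π : K} (hw : IsDisc w π) {q : ℕ} (hq : 1 ≤ q) (y : L)
    (hy : v y ^ q = v (algebraMap K L π)) : q ≤ Module.finrank K L := by
  classical
  have hπ : v (algebraMap K L π) ≠ 0 := (Valuation.ne_zero_iff _).2 (by simpa using hw.ne_zero)
  have hπ1 : v (algebraMap K L π) < 1 := h.lt_one_iff.2 hw.lt_one
  have hy0 : y ≠ 0 := by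
    rintro rfl
    rw [map_zero, zero_pow (by omega)] at hy
    exact hπ hy.symm
  have hli : LinearIndependent K (fun k : Fin q => y ^ (k : ℕ)) := by
    rw [Fintype.linearIndependent_iff]
    intro g hg
    by_contra hcon
    push Not at hcon
    obtain ⟨i0, hi0⟩ := hcon
    let s : Finset (Fin q) := Finset.univ.filter (fun i => g i ≠ 0)
    have hs : s.Nonempty := ⟨i0, by simp [s, hi0]⟩
    obtain ⟨i, hi, j, hj, hij, hv⟩ := exists_eq_of_sum_eq_zero v s hs
      (fun i => g i • y ^ (i : ℕ)) (fun i hi => by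
        have : g i ≠ 0 := (Finset.mem_filter.1 hi).2
        exact smul_ne_zero this (pow_ne_zero _ hy0)) (by
        rw [← hg, Finset.sum_filter]
        refine Finset.sum_congr rfl fun i _ => ?_
        split_ifs with h1
        · rfl
        · push Not at h1
          rw [h1, zero_smul])
    have hgi : g i ≠ 0 := (Finset.mem_filter.1 hi).2
    have hgj : g j ≠ 0 := (Finset.mem_filter.1 hj).2
    obtain ⟨m, hm⟩ := hw.exists_zpow _ hgi
    obtain ⟨n, hn⟩ := hw.exists_zpow _ hgj
    have hm' := h.zpow hw.ne_zero hm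
    have hn' := h.zpow hw.ne_zero hn
    rw [Algebra.smul_def, Algebra.smul_def, map_mul, map_mul, map_pow, map_pow, hm', hn'] at hv
    have h2 := congrArg (fun z => z ^ q) hv
    simp only [mul_pow] at h2
    have h3 : ∀ l : ℕ, (v y ^ l) ^ q = v (algebraMap K L π) ^ (l : ℤ) := fun l => by
      rw [← pow_mul, mul_comm, pow_mul, hy, zpow_natCast]
    have h4 : ∀ l : ℤ, (v (algebraMap K L π) ^ l) ^ q = v (algebraMap K L π) ^ (l * q) := fun l => by
      rw [zpow_mul, zpow_natCast]
    rw [h3, h3, h4, h4, ← zpow_add₀ hπ, ← zpow_add₀ hπ] at h2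
    have h5 := zpow_inj hπ hπ1 h2
    have hi1 := i.2
    have hj1 := j.2
    apply hij
    apply Fin.ext
    have h6 : ((i : ℕ) : ℤ) % q = ((j : ℕ) : ℤ) % q := by
      have e1 : (m * q + (i : ℕ) : ℤ) % q = ((i : ℕ) : ℤ) % q := by
        rw [add_comm, Int.add_mul_emod_self_right]
      have e2 : (n * q + (j : ℕ) : ℤ) % q = ((j : ℕ) : ℤ) % q := by
        rw [add_comm, Int.add_mul_emod_self_right]
      rw [← e1, ← e2, h5]
    rw [Int.emod_eq_of_lt (by positivity) (by exact_mod_cast hi1),
      Int.emod_eq_of_lt (by positivity) (by exact_mod_cast hj1)] at h6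
    exact_mod_cast h6
  have := hli.fintype_card_le_finrank
  simpa using this

/-- The value group of an algebraic extension is torsion over that of the field. -/
theorem torsion [Algebra.IsAlgebraic K L] {w : Valuation K Γ} {v : Valuation L Δ}
    (h : Extends w v) {π : K} (hw : IsDisc w π) (y : L) (hy : y ≠ 0) :
    ∃ (k : ℕ) (n : ℤ), 1 ≤ k ∧ v y ^ k = v (algebraMap K L π) ^ n := by
  classical
  have hπ : v (algebraMap K L π) ≠ 0 := (Valuation.ne_zero_iff _).2 (by simpa using hw.ne_zero)
  obtain ⟨p, hp0, hp⟩ := Algebra.IsAlgebraic.isAlgebraic (R := K) y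
  obtain ⟨i, hi, j, hj, hij, hv⟩ := exists_eq_of_sum_eq_zero v p.support
    (Polynomial.nonempty_support_iff.2 hp0) (fun i => algebraMap K L (p.coeff i) * y ^ i)
    (fun i hi => mul_ne_zero (by simpa using hi) (pow_ne_zero _ hy)) (by
      rw [Polynomial.aeval_def, Polynomial.eval₂_eq_sum, Polynomial.sum_def] at hp
      exact hp)
  have hgi : p.coeff i ≠ 0 := by simpa using hi
  have hgj : p.coeff j ≠ 0 := by simpa using hj
  obtain ⟨m, hm⟩ := hw.exists_zpow _ hgi
  obtain ⟨n, hn⟩ := hw.exists_zpow _ hgj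
  have hm' := h.zpow hw.ne_zero hm
  have hn' := h.zpow hw.ne_zero hn
  rw [map_mul, map_mul, map_pow, map_pow, hm', hn'] at hv
  have hvy : v y ≠ 0 := (Valuation.ne_zero_iff _).2 hy
  rcases lt_or_gt_of_ne hij with hl | hl
  · refine ⟨j - i, m - n, by omega, ?_⟩
    have e1 : v y ^ j = v y ^ i * v y ^ (j - i) := by
      rw [← pow_add]
      congr 1
      omega
    rw [e1] at hv
    rw [zpow_sub₀ hπ]
    have h2 : v y ^ i ≠ 0 := pow_ne_zero _ hvy
    have h3 : v (algebraMap K L π) ^ n ≠ 0 := zpow_ne_zero _ hπ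
    rw [eq_div_iff h3]
    apply mul_left_cancel₀ h2
    rw [mul_comm (v y ^ i) (v (algebraMap K L π) ^ m), hv]
    ac_rfl
  · refine ⟨i - j, n - m, by omega, ?_⟩
    have e1 : v y ^ i = v y ^ j * v y ^ (i - j) := by
      rw [← pow_add]
      congr 1
      omega
    rw [e1] at hv
    rw [zpow_sub₀ hπ]
    have h2 : v y ^ j ≠ 0 := pow_ne_zero _ hvy
    have h3 : v (algebraMap K L π) ^ m ≠ 0 := zpow_ne_zero _ hπ
    rw [eq_div_iff h3]
    apply mul_left_cancel₀ h2
    rw [mul_comm (v y ^ j) (v (algebraMap K L π) ^ n), ← hv]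
    ac_rfl

end ext

end Pool.Agent.H48
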