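import Pool.Agent.H48.Ext

/-!
# Henselian pairs with many discrete valuations
-/

set_option autoImplicit false

namespace Pool.Agent.H48

open Finset Polynomial FirstOrder FirstOrder.Ring

section hens

variable {R : Type} [CommRing R] (I : Ideal R) [HenselianRing R I] {K : Type} [Field K]

theorem rootIdeal_of_henselian (f : R →+* K) {d : ℕ} (hd : 1 ≤ d) : RootIdeal d f I := by
  classical
  intro c hc
  let p : R[X] := X ^ (d - 1) + ∑ k : Fin d, C (c k) * X ^ (d - 1 - (k : ℕ))
  let g : R[X] := X ^ d + p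
  have hp : p.degree < (d : WithBot ℕ) := by
    have h1 : ∀ m : ℕ, m ≤ d - 1 → (X ^ m : R[X]).degree < (d : WithBot ℕ) := fun m hm =>
      lt_of_le_of_lt (Polynomial.degree_X_pow_le m) (by
        have : m < d := by omega
        exact_mod_cast this)
    refine lt_of_le_of_lt (Polynomial.degree_add_le _ _) (max_lt (h1 _ le_rfl) ?_)
    refine lt_of_le_of_lt (Polynomial.degree_sum_le _ _) ?_
    rw [Finset.sup_lt_iff (by exact WithBot.bot_lt_coe d)]
    intro k _
    refine lt_of_le_of_lt (Polynomial.degree_C_mul_X_pow_le _ _) ?_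
    have : d - 1 - (k : ℕ) < d := by omega
    exact_mod_cast this
  have hg : g.Monic := Polynomial.monic_X_pow_add hp
  have h1 : g.eval (-1) ∈ I := by
    have e : g.eval (-1) = ((-1) ^ d + (-1) ^ (d - 1)) +
        ∑ k : Fin d, c k * (-1) ^ (d - 1 - (k : ℕ)) := by
      simp only [g, p, eval_add, eval_pow, eval_X, eval_finsetSum, eval_mul, eval_C]
      ring
    have e2 : ((-1 : R) ^ d + (-1) ^ (d - 1)) = 0 := by
      obtain ⟨d', rfl⟩ : ∃ d', d = d' + 1 := ⟨d - 1, by omega⟩
      rw [Nat.add_sub_cancel]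
      ring
    rw [e, e2, zero_add]
    exact Ideal.sum_mem _ fun k _ => Ideal.mul_mem_right _ _ (hc k)
  have h2 : g.derivative.eval (-1) - (-1) ^ (d - 1) ∈ I := by
    have e : g.derivative.eval (-1) = ((d : R) * (-1) ^ (d - 1) +
        ((d - 1 : ℕ) : R) * (-1) ^ (d - 1 - 1)) +
        ∑ k : Fin d, c k * (((d - 1 - (k : ℕ) : ℕ) : R) * (-1) ^ (d - 1 - (k : ℕ) - 1)) := by
      simp only [g, p, derivative_add, derivative_X_pow, derivative_sum, derivative_mul,
        derivative_C, zero_mul, zero_add, eval_add, eval_mul, eval_pow, eval_X, eval_finsetSum,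
        eval_C]
      ring
    have e2 : ((d : R) * (-1) ^ (d - 1) + ((d - 1 : ℕ) : R) * (-1) ^ (d - 1 - 1)) =
        (-1) ^ (d - 1) := by
      obtain ⟨d', rfl⟩ : ∃ d', d = d' + 1 := ⟨d - 1, by omega⟩
      rcases Nat.eq_zero_or_pos d' with h | h
      · subst h
        simp
      · obtain ⟨e', rfl⟩ : ∃ e', d' = e' + 1 := ⟨d' - 1, by omega⟩
        simp only [Nat.add_sub_cancel]
        push_cast
        ring
    rw [e, e2, add_sub_cancel_left]
    exact Ideal.sum_mem _ fun k _ => Ideal.mul_mem_right _ _ (hc k)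
  have h3 : IsUnit (Ideal.Quotient.mk I (g.derivative.eval (-1))) := by
    have e : Ideal.Quotient.mk I (g.derivative.eval (-1)) = Ideal.Quotient.mk I ((-1) ^ (d - 1)) :=
      Ideal.Quotient.eq.2 h2
    rw [e]
    exact ((isUnit_one.neg).pow _).map _
  obtain ⟨a, ha, -⟩ := HenselianRing.is_henselian g hg (-1) h1 h3
  refine ⟨f a, ?_⟩
  have h4 := congrArg f ha
  simp only [g, p, eval_add, eval_pow, eval_X, eval_finsetSum, eval_mul, eval_C, map_add,
    map_pow, map_sum, map_mul, map_zero] at h4
  rw [← h4]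
  ring

end hens

section fam

variable {K L : Type} [Field K] [Field L] [Algebra K L]

/-- the conditions of `few` for extensions of discrete valuations -/
theorem arch_ext [Algebra.IsAlgebraic K L] {R : Type} [CommRing R] (f : R →+* K)
    {Γ Δ : Type} [LinearOrderedCommGroupWithZero Γ] [LinearOrderedCommGroupWithZero Δ]
    {w : Valuation K Γ} {v : Valuation L Δ} (h : Extends w v) {π : K} (hw : IsDisc w π)
    (x : R) (hx : v (algebraMap K L (f x)) < 1) (y : L) (hy : y ≠ 0) :
    ∃ m : ℕ, v (algebraMap K L (f x)) ^ m ≤ v y := by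
  have hπ0 : v (algebraMap K L π) ≠ 0 := (Valuation.ne_zero_iff _).2 (by simpa using hw.ne_zero)
  by_cases hx0 : f x = 0
  · refine ⟨1, ?_⟩
    rw [hx0, map_zero, map_zero, pow_one]
    exact zero_le
  obtain ⟨n, hn⟩ := hw.exists_zpow _ hx0
  have hn' := h.zpow hw.ne_zero hn
  have hwx : w (f x) < 1 := h.lt_one_iff.1 hx
  have hn1 : 1 ≤ n := by
    by_contra hlt
    push Not at hlt
    have h1 : (1 : Γ) ≤ w (f x) := by
      rw [hn]
      have := zpow_le_zpow_of_lt_one ((Valuation.ne_zero_iff _).2 hw.ne_zero) hw.lt_one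
        (show n ≤ 0 by omega)
      rwa [zpow_zero] at this
    exact absurd hwx (not_lt.2 h1)
  refine arch_of_torsion (π := algebraMap K L π) (by simpa using hw.ne_zero)
    (h.lt_one_iff.2 hw.lt_one) ⟨n.toNat, by omega, ?_⟩ (torsion h hw y hy)
  rw [hn', ← zpow_natCast, Int.toNat_of_nonneg (by omega)]

/-- Let `K` be a field with a ring homomorphism from a ring `R` with an ideal with roots, and
assume that it has arbitrarily many discrete valuations, with generators in `R` which are units for
the other ones. Then no finite extension of `K` is NIP. -/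
theorem not_nip [FiniteDimensional K L] [CompatibleRing L] (R : Type) [CommRing R]
    (f : R →+* K) (hf : Function.Injective f) (I : Ideal R) (hI : I ≠ ⊥)
    (hroot : ∀ q : ℕ, 1 ≤ q → RootIdeal q ((algebraMap K L).comp f) I)
    (hfam : ∀ N : ℕ, ∃ (π : Fin N → R) (Γ : Fin N → Type)
      (_ : ∀ i, LinearOrderedCommGroupWithZero (Γ i)) (w : ∀ i, Valuation K (Γ i)),
      (∀ i, IsDisc (w i) (f (π i))) ∧ (∀ i r, w i (f r) ≤ 1) ∧
        ∀ i j, i ≠ j → w i (f (π j)) = 1) :
    ¬ NIPField L := by
  intro hL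
  obtain ⟨N, hN⟩ := few hL (Module.finrank K L + 1) (by omega)
  obtain ⟨π, Γ, _, w, hdisc, hle, hone⟩ := hfam N
  choose B hB using fun i => exists_extends L (w i)
  refine hN L (show Language.ring.ElementarilyEquivalent L L from rfl) R ((algebraMap K L).comp f)
    ((algebraMap K L).injective.comp hf) I hI (hroot _ (by omega))
    (fun i => (B i).ValueGroup) (fun i => (B i).valuation) ?_ ?_ ?_ ?_
  · intro i r
    exact (hB i _).2 (hle i r)
  · intro i j hij
    exact ⟨π i, (hB i).lt_one_iff.2 (hdisc i).lt_one, (hB j).eq_one (hone j i hij.symm)⟩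
  · intro i x hx y hy
    exact arch_ext f (hB i) (hdisc i) x hx y hy
  · intro i
    refine farC_of_not_pow (by omega) _ _ (π i) (by simpa using (hdisc i).ne_zero) fun y hy => ?_
    have := le_finrank (hB i) (hdisc i) (by omega) y hy
    omega

end fam

end Pool.Agent.H48
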