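import Mathlib

/-!
# The formula a monic polynomial has a root, and independence patterns in NIP fields
-/

set_option autoImplicit false

namespace Pool.Agent.H48

open FirstOrder FirstOrder.Language FirstOrder.Ring

/-- `K` is NIP: no formula of the language of rings has the independence property in `K` (this is
literally the hypothesis of the frozen statement `S14569`). -/
def NIPField (K : Type) [Field K] [FirstOrder.Ring.CompatibleRing K] : Prop :=
  ∀ (m k : ℕ) (φ : FirstOrder.Language.ring.Formula (Fin m ⊕ Fin k)),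
    ∃ n : ℕ, ∀ (a : Fin n → Fin m → K) (b : Finset (Fin n) → Fin k → K),
      ∃ (i : Fin n) (J : Finset (Fin n)),
        ¬ (φ.Realize (Sum.elim (a i) (b J)) ↔ i ∈ J)

section pat

variable {m k : ℕ} (φ : Language.ring.Formula (Fin m ⊕ Fin k)) (n : ℕ)

/-- the variables of a pattern of size `n` -/
abbrev PV (m k n : ℕ) : Type := (Fin n × Fin m) ⊕ (Finset (Fin n) × Fin k)

/-- the instance of `φ` at `i`, `J` -/
def inst (p : Fin n × Finset (Fin n)) : Language.ring.Formula (Empty ⊕ PV m k n) :=
  φ.relabel (Sum.elim (fun j => Sum.inr (Sum.inl (p.1, j))) (fun j => Sum.inr (Sum.inr (p.2, j))))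

open Classical in
/-- the sentence: there is an independence pattern of size `n` -/
noncomputable def patS : Language.ring.Sentence :=
  Formula.iExs (PV m k n) (Formula.iInf fun p : Fin n × Finset (Fin n) =>
    if p.1 ∈ p.2 then inst φ n p else (inst φ n p).not)

theorem realize_patS (K : Type) [Field K] [CompatibleRing K] :
    K ⊨ patS φ n ↔ ∃ (a : Fin n → Fin m → K) (b : Finset (Fin n) → Fin k → K),
      ∀ i J, (φ.Realize (Sum.elim (a i) (b J)) ↔ i ∈ J) := by
  classical
  rw [patS, Sentence.Realize, Formula.realize_iExs]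
  have key : ∀ (v : PV m k n → K) (p : Fin n × Finset (Fin n)),
      (inst φ n p).Realize (Sum.elim (default : Empty → K) v) ↔
        φ.Realize (Sum.elim (fun j => v (Sum.inl (p.1, j))) (fun j => v (Sum.inr (p.2, j)))) := by
    intro v p
    rw [inst, Formula.realize_relabel]
    have : (Sum.elim (default : Empty → K) v) ∘
        (Sum.elim (fun j => Sum.inr (Sum.inl (p.1, j))) (fun j => Sum.inr (Sum.inr (p.2, j))) :
          Fin m ⊕ Fin k → Empty ⊕ PV m k n) =
        Sum.elim (fun j => v (Sum.inl (p.1, j))) (fun j => v (Sum.inr (p.2, j))) := by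
      funext t
      rcases t with t | t <;> rfl
    rw [this]
  constructor
  · rintro ⟨v, hv⟩
    rw [Formula.realize_iInf] at hv
    refine ⟨fun i j => v (Sum.inl (i, j)), fun J j => v (Sum.inr (J, j)), fun i J => ?_⟩
    have h := hv (i, J)
    by_cases hi : i ∈ J
    · simp only [hi, if_true] at h
      exact ⟨fun _ => hi, fun _ => (key v (i, J)).1 h⟩
    · simp only [hi, if_false] at h
      rw [Formula.realize_not] at h
      exact ⟨fun h' => absurd ((key v (i, J)).2 h') h, fun h' => absurd h' hi⟩
  · rintro ⟨a, b, hab⟩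
    refine ⟨Sum.elim (fun p => a p.1 p.2) (fun p => b p.1 p.2), ?_⟩
    rw [Formula.realize_iInf]
    rintro ⟨i, J⟩
    have h1 := key (Sum.elim (fun p => a p.1 p.2) (fun p => b p.1 p.2)) (i, J)
    simp only [Sum.elim_inl, Sum.elim_inr] at h1
    by_cases hi : i ∈ J
    · simp only [hi, if_true]
      exact h1.2 ((hab i J).2 hi)
    · simp only [hi, if_false]
      rw [Formula.realize_not]
      exact fun h' => hi ((hab i J).1 (h1.1 h'))

/-- For every formula there is a bound for the sizes of the independence patterns, which holds for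
all fields elementarily equivalent to an NIP field. -/
theorem exists_no_pattern {K : Type} [Field K] [CompatibleRing K] (hK : NIPField K) :
    ∃ n : ℕ, ∀ (K' : Type) [Field K'] [CompatibleRing K'],
      Language.ring.ElementarilyEquivalent K K' →
      ∀ (a : Fin n → Fin m → K') (b : Finset (Fin n) → Fin k → K'),
        ∃ (i : Fin n) (J : Finset (Fin n)),
          ¬ (φ.Realize (Sum.elim (a i) (b J)) ↔ i ∈ J) := by
  obtain ⟨n, hn⟩ := hK m k φ
  refine ⟨n, fun K' _ _ h a b => ?_⟩
  by_contra hcon
  push Not at hcon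
  have h1 : K' ⊨ patS φ n := (realize_patS φ n K').2 ⟨a, b, hcon⟩
  have h2 := (elementarilyEquivalent_iff.1 h _).2 h1
  obtain ⟨a', b', hab⟩ := (realize_patS φ n K).1 h2
  obtain ⟨i, J, hiJ⟩ := hn a' b'
  exact hiJ (hab i J)

end pat

section root

/-- the polynomial `X ^ d + a X ^ (d - 1) + ∑ c_k X ^ (d - 1 - k)`, as an element of the free
commutative ring -/
noncomputable def rootP (d : ℕ) : FreeCommRing ((Fin 1 ⊕ Fin d) ⊕ Fin 1) :=
  FreeCommRing.of (Sum.inr 0) ^ d + FreeCommRing.of (Sum.inl (Sum.inl 0)) *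
    FreeCommRing.of (Sum.inr 0) ^ (d - 1) +
    ∑ k : Fin d, FreeCommRing.of (Sum.inl (Sum.inr k)) * FreeCommRing.of (Sum.inr 0) ^ (d - 1 - k)

/-- the formula: the polynomial `X ^ d + a X ^ (d - 1) + ∑ c_k X ^ (d - 1 - k)` has a root -/
noncomputable def rootF (d : ℕ) : Language.ring.Formula (Fin 1 ⊕ Fin d) :=
  (BoundedFormula.ex (n := 0) (Term.bdEqual (termOfFreeCommRing (rootP d)) 0) :
    Language.ring.BoundedFormula (Fin 1 ⊕ Fin d) 0)

theorem realize_rootF (d : ℕ) (K : Type) [Field K] [CompatibleRing K] (a : Fin 1 → K)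
    (c : Fin d → K) : (rootF d).Realize (Sum.elim a c) ↔
      ∃ x : K, x ^ d + a 0 * x ^ (d - 1) + ∑ k : Fin d, c k * x ^ (d - 1 - (k : ℕ)) = 0 := by
  rw [rootF, Formula.Realize, BoundedFormula.realize_ex]
  refine exists_congr fun x => ?_
  rw [BoundedFormula.realize_bdEqual, realize_termOfFreeCommRing, realize_zero]
  rw [rootP]
  simp only [map_add, map_mul, map_pow, map_sum, FreeCommRing.lift_of, Sum.elim_inl, Sum.elim_inr]
  rfl

end root

end Pool.Agent.H48
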