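import Pool.Agent.H48.Fam

/-!
# Henselian pairs: rings which are determined by their localizations at minimal nonzero primes
-/

set_option autoImplicit false

namespace Pool.Agent.H48

open Finset Polynomial FirstOrder FirstOrder.Ring

/-- `p` is a minimal nonzero prime ideal (in a domain: a prime ideal of height one). -/
def MinPrime {R : Type} [CommRing R] (p : Ideal R) : Prop :=
  p.IsPrime ∧ p ≠ ⊥ ∧ ∀ q : Ideal R, q.IsPrime → q ≠ ⊥ → q ≤ p → q = p

section

variable {R : Type} [CommRing R] [IsDomain R]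

theorem exists_dv (p : Ideal R) [hp : p.IsPrime]
    [IsDiscreteValuationRing (Localization.AtPrime p)] : ∃ r : R, Dv p r := by
  obtain ⟨ϖ, hϖ⟩ := IsDiscreteValuationRing.exists_irreducible (Localization.AtPrime p)
  obtain ⟨r, s, hrs⟩ := IsLocalization.exists_mk'_eq p.primeCompl ϖ
  have hs : (s : R) ∉ p := s.2
  have hinj : Function.Injective (algebraMap R (Localization.AtPrime p)) :=
    IsLocalization.injective _ p.primeCompl_le_nonZeroDivisors
  have hrs' : ϖ * algebraMap R _ (s : R) = algebraMap R _ r := by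
    rw [← hrs, IsLocalization.mk'_spec]
  have hunit : ∀ {x : R}, x ∉ p → IsUnit (algebraMap R (Localization.AtPrime p) x) := fun {x} hx =>
    IsLocalization.map_units _ (⟨x, hx⟩ : p.primeCompl)
  have hnu : ∀ {x : R}, IsUnit (algebraMap R (Localization.AtPrime p) x) → x ∉ p := by
    intro x hx
    exact (IsLocalization.AtPrime.isUnit_to_map_iff _ p x).1 hx
  refine ⟨r, hp, ?_, fun a ha => ?_⟩
  · by_contra hr
    have h1 := hunit hr
    rw [← hrs'] at h1
    exact hϖ.not_isUnit (isUnit_of_mul_isUnit_left h1)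
  · have ha' : algebraMap R (Localization.AtPrime p) a ≠ 0 := by
      rw [Ne, map_eq_zero_iff _ hinj]
      exact ha
    obtain ⟨n, u, hu⟩ := IsDiscreteValuationRing.eq_unit_mul_pow_irreducible ha' hϖ
    obtain ⟨w, t, hwt⟩ := IsLocalization.exists_mk'_eq p.primeCompl (u : Localization.AtPrime p)
    have ht : (t : R) ∉ p := t.2
    have hwt' : (u : Localization.AtPrime p) * algebraMap R _ (t : R) = algebraMap R _ w := by
      rw [← hwt, IsLocalization.mk'_spec]
    have hw : w ∉ p := by
      apply hnu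
      rw [← hwt']
      exact u.isUnit.mul (hunit ht)
    refine ⟨n, w, (t : R) * (s : R) ^ n, hw, fun hcon => ?_, ?_⟩
    · rcases hp.mem_or_mem hcon with h | h
      · exact ht h
      · exact hs (hp.mem_of_pow_mem _ h)
    · apply hinj
      simp only [map_mul, map_pow]
      rw [hu, ← hwt', ← hrs']
      ring

variable {K : Type} [Field K] [Algebra R K] [IsFractionRing R K]

theorem finite_minPrime [CompatibleRing K] (hK : NIPField K) (I : Ideal R) (hI : I ≠ ⊥)
    (hroot : RootIdeal 2 (algebraMap R K) I)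
    (h1 : ∀ (p : Ideal R) [p.IsPrime], MinPrime p →
      IsDiscreteValuationRing (Localization.AtPrime p)) :
    {p : Ideal R | MinPrime p}.Finite := by
  classical
  by_contra hinf
  obtain ⟨N, hN⟩ := few hK 2 (by norm_num)
  obtain ⟨s, hs, hcard⟩ := (show {p : Ideal R | MinPrime p}.Infinite from hinf).exists_subset_card_eq N
  let P : Fin N → Ideal R := fun i => (s.equivFinOfCardEq hcard).symm i
  have hPinj : Function.Injective P := fun i j h =>
    (s.equivFinOfCardEq hcard).symm.injective (Subtype.ext h)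
  have hP : ∀ i, MinPrime (P i) := fun i => hs ((s.equivFinOfCardEq hcard).symm i).2
  have hex : ∀ i, ∃ r : R, Dv (P i) r := fun i => by
    have := (hP i).1
    have := h1 (P i) (hP i)
    exact exists_dv (P i)
  choose r hr using hex
  have hr0 : ∀ i, r i ≠ 0 := fun i => (hr i).ne_zero (hP i).2.1
  have hinc : ∀ i j, i ≠ j → ∃ x : R, x ∈ P i ∧ x ∉ P j := by
    intro i j hij
    by_contra hcon
    push Not at hcon
    exact hij (hPinj ((hP j).2.2 (P i) (hP i).1 (hP i).2.1 hcon))
  refine hN K (show Language.ring.ElementarilyEquivalent K K from rfl) R (algebraMap R K)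
    (IsFractionRing.injective R K) I hI hroot (fun i => (dvRing K (hr i) (hr0 i)).ValueGroup)
    (fun i => (dvRing K (hr i) (hr0 i)).valuation) ?_ ?_ ?_ ?_
  · intro i x
    exact dv_le_one _ _ x
  · intro i j hij
    obtain ⟨x, hx1, hx2⟩ := hinc i j hij
    exact ⟨x, (dv_lt_one_iff _ _ x).2 hx1, dv_eq_one _ _ hx2⟩
  · intro i x hx y hy
    have hd := dv_isDisc (K := K) (hr i) (hr0 i)
    have hx' := (dv_lt_one_iff (K := K) (hr i) (hr0 i) x).1 hx
    by_cases hx0 : x = 0
    · refine ⟨1, ?_⟩
      rw [hx0, map_zero, map_zero, pow_one]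
      exact zero_le
    obtain ⟨n, hn1, hn2⟩ := dv_pow (K := K) (hr i) (hr0 i) hx0
    obtain ⟨m, hm⟩ := hd.exists_zpow y hy
    exact arch_of_torsion hd.ne_zero hd.lt_one ⟨n, hn2 hx', hn1⟩ ⟨1, m, le_rfl, by rwa [pow_one]⟩
  · intro i
    have hd := dv_isDisc (K := K) (hr i) (hr0 i)
    refine farC_of_not_pow (by norm_num) _ _ (r i) hd.ne_zero fun y hy => ?_
    have hv0 : (dvRing K (hr i) (hr0 i)).valuation (algebraMap R K (r i)) ≠ 0 :=
      (Valuation.ne_zero_iff _).2 hd.ne_zero
    have hy0 : y ≠ 0 := by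
      rintro rfl
      rw [map_zero, zero_pow (by norm_num)] at hy
      exact hv0 hy.symm
    obtain ⟨m, hm⟩ := hd.exists_zpow y hy0
    rw [hm, ← zpow_natCast, ← zpow_mul] at hy
    have h2 := zpow_inj hv0 hd.lt_one (hy.trans (zpow_one _).symm)
    push_cast at h2
    omega

/-- The ring is a discrete valuation ring. -/
theorem isDVR_of_nip [CompatibleRing K] (hK : NIPField K) (I : Ideal R) (hI : I ≠ ⊥)
    [HenselianRing R I]
    (h1 : ∀ (p : Ideal R) [p.IsPrime], MinPrime p →
      IsDiscreteValuationRing (Localization.AtPrime p))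
    (h2 : ∀ x : K, (∀ p : Ideal R, MinPrime p → ∃ a s : R, s ∉ p ∧
      x * algebraMap R K s = algebraMap R K a) → ∃ a : R, algebraMap R K a = x) :
    IsDiscreteValuationRing R := by
  classical
  have hfin := finite_minPrime hK I hI (rootIdeal_of_henselian I _ (by norm_num)) h1
  have hjac : I ≤ Ideal.jacobson ⊥ := HenselianRing.jac
  have hIM : ∀ M : Ideal R, M.IsMaximal → I ≤ M := fun M hM =>
    hjac.trans (sInf_le ⟨bot_le, hM⟩)
  have hM0 : ∀ M : Ideal R, M.IsMaximal → M ≠ ⊥ := by
    intro M hM h0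
    exact hI (le_bot_iff.1 ((hIM M hM).trans h0.le))
  -- maximal ideals are minimal nonzero primes
  have hmax : ∀ M : Ideal R, M.IsMaximal → MinPrime M := by
    intro M hM
    have h3 : (M : Set R) ⊆ ⋃ p ∈ (hfin.toFinset : Set (Ideal R)), (p : Set R) := by
      intro x hx
      by_contra hcon
      have hcon' : ∀ p : Ideal R, MinPrime p → x ∉ p := by
        intro p hp hxp
        apply hcon
        simp only [Set.mem_iUnion]
        exact ⟨p, by simpa using hp, hxp⟩
      by_cases hx0 : x = 0
      · subst hx0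
        -- there are no minimal primes; then everything is in `R`
        obtain ⟨y, hy, hy0⟩ := Submodule.exists_mem_ne_zero_of_ne_bot (hM0 M hM)
        obtain ⟨a, ha⟩ := h2 (algebraMap R K y)⁻¹ (fun p hp => absurd p.zero_mem (hcon' p hp))
        have hyK : algebraMap R K y ≠ 0 := by rwa [Ne, FaithfulSMul.algebraMap_eq_zero_iff]
        have h4 : a * y = 1 := by
          apply IsFractionRing.injective R K
          rw [map_mul, ha, inv_mul_cancel₀ hyK, map_one]
        exact hM.ne_top ((Ideal.eq_top_iff_one _).2 (h4 ▸ M.mul_mem_left a hy))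
      · have hxK : algebraMap R K x ≠ 0 := by rwa [Ne, FaithfulSMul.algebraMap_eq_zero_iff]
        obtain ⟨a, ha⟩ := h2 (algebraMap R K x)⁻¹ (fun p hp => ⟨1, x, hcon' p hp, by
          rw [inv_mul_cancel₀ hxK, map_one]⟩)
        have h4 : a * x = 1 := by
          apply IsFractionRing.injective R K
          rw [map_mul, ha, inv_mul_cancel₀ hxK, map_one]
        exact hM.ne_top ((Ideal.eq_top_iff_one _).2 (h4 ▸ M.mul_mem_left a hx))
    rw [Ideal.subset_union_prime (f := fun p : Ideal R => p) ⊥ ⊥
      (fun p hp _ _ => (by simpa using hp : MinPrime p).1)] at h3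
    obtain ⟨p, hp, hle⟩ := h3
    have hp' : MinPrime p := by simpa using hp
    rw [hM.eq_of_le hp'.1.ne_top hle]
    exact hp'
  -- there is only one maximal ideal
  have huniq : ∀ M M' : Ideal R, M.IsMaximal → M'.IsMaximal → M = M' := by
    intro M M' hM hM'
    by_contra hne
    -- all nonzero primes are maximal
    have hfinM : {M : Ideal R | M.IsMaximal}.Finite := hfin.subset fun M hM => hmax M hM
    let s : Finset (Ideal R) := hfinM.toFinset.erase M
    have hs : ∀ Q ∈ s, Q.IsMaximal ∧ Q ≠ M := fun Q hQ => by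
      simp only [s, Finset.mem_erase, Set.Finite.mem_toFinset] at hQ
      exact ⟨hQ.2, hQ.1⟩
    have hcop : IsCoprime M (∏ Q ∈ s, Q) := by
      apply IsCoprime.prod_right
      intro Q hQ
      rw [Ideal.isCoprime_iff_sup_eq]
      exact hM.coprime_of_ne (hs Q hQ).1 (hs Q hQ).2.symm
    obtain ⟨e, he, e', he', hee⟩ := Ideal.isCoprime_iff_exists.1 hcop
    -- `e * e'` is in all nonzero primes
    obtain ⟨a, haI, ha0⟩ := Submodule.exists_mem_ne_zero_of_ne_bot hI
    have hrad : e * e' ∈ (Ideal.span {a}).radical := by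
      rw [Ideal.radical_eq_sInf, Ideal.mem_sInf]
      intro q hq
      obtain ⟨hq1, hq2⟩ := hq
      obtain ⟨Q, hQ, hqQ⟩ := Ideal.exists_le_maximal q hq2.ne_top
      have hq0 : q ≠ ⊥ := by
        rintro rfl
        exact ha0 (by simpa using hq1 (Ideal.mem_span_singleton_self a))
      rw [(hmax Q hQ).2.2 q hq2 hq0 hqQ]
      by_cases hQM : Q = M
      · rw [hQM]
        exact M.mul_mem_right _ he
      · refine Q.mul_mem_left _ (Ideal.le_of_dvd ?_ he')
        exact Finset.dvd_prod_of_mem _ (by simp [s, hQM, hQ])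
    obtain ⟨n, hn⟩ := hrad
    have hnI : (e * e') ^ n ∈ I := by
      obtain ⟨b, hb⟩ := Ideal.mem_span_singleton'.1 hn
      rw [← hb]
      exact I.mul_mem_left _ haI
    have hcop2 : IsCoprime (e ^ (n + 1)) (e' ^ (n + 1)) :=
      (IsCoprime.pow ⟨1, 1, by rw [one_mul, one_mul]; exact hee⟩)
    obtain ⟨u, v, huv⟩ := hcop2
    set ε : R := u * e ^ (n + 1) with hε
    have hε1 : 1 - ε = v * e' ^ (n + 1) := by rw [← huv]; ring
    have hεI : ε * ε - ε ∈ I := by
      have : ε * ε - ε = -(ε * (1 - ε)) := by ring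
      rw [this, hε1, hε]
      have e2 : u * e ^ (n + 1) * (v * e' ^ (n + 1)) = (u * v * (e * e')) * (e * e') ^ n := by ring
      rw [e2]
      exact I.neg_mem (I.mul_mem_left _ hnI)
    let g : R[X] := X ^ 2 - X
    have hg : g.Monic := by
      have : g = X ^ 2 + (-X) := by simp [g, sub_eq_add_neg]
      rw [this]
      apply Polynomial.monic_X_pow_add
      rw [Polynomial.degree_neg]
      exact lt_of_le_of_lt Polynomial.degree_X_le (by norm_num)
    have hunit : IsUnit (Ideal.Quotient.mk I (g.derivative.eval ε)) := by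
      have h4 : g.derivative.eval ε = 2 * ε - 1 := by
        simp only [g, derivative_sub, derivative_X_pow, derivative_X, eval_sub, eval_mul,
          eval_pow, eval_X, eval_C, eval_one]
        norm_num
      rw [h4]
      refine IsUnit.of_mul_eq_one (Ideal.Quotient.mk I (2 * ε - 1)) ?_
      rw [← map_mul, ← map_one (Ideal.Quotient.mk I), Ideal.Quotient.eq]
      have : (2 * ε - 1) * (2 * ε - 1) - 1 = 4 * (ε * ε - ε) := by ring
      rw [this]
      exact I.mul_mem_left _ hεI
    obtain ⟨z, hz, hzε⟩ := HenselianRing.is_henselian g hg ε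
      (by simpa [g, pow_two] using hεI) hunit
    have hz2 : z * (z - 1) = 0 := by
      have : z ^ 2 - z = 0 := by simpa [g] using hz
      rw [← this]; ring
    have hεM : ε ∈ M := M.mul_mem_left _ (M.pow_mem_of_mem he _ (Nat.succ_pos n))
    have hM's : M' ∈ s := by simp [s, Ne.symm hne, hM']
    have he'M' : e' ∈ M' := Ideal.le_of_dvd (Finset.dvd_prod_of_mem _ hM's) he'
    have hεM' : 1 - ε ∈ M' := by
      rw [hε1]
      exact M'.mul_mem_left _ (M'.pow_mem_of_mem he'M' _ (Nat.succ_pos n))
    rcases mul_eq_zero.1 hz2 with h | h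
    · rw [h, zero_sub] at hzε
      have h5 : ε ∈ M' := hIM M' hM' (by simpa using I.neg_mem hzε)
      exact hM'.ne_top ((Ideal.eq_top_iff_one _).2 (by simpa using M'.add_mem h5 hεM'))
    · have h6 : z = 1 := sub_eq_zero.1 h
      rw [h6] at hzε
      have h7 : 1 - ε ∈ M := hIM M hM hzε
      exact hM.ne_top ((Ideal.eq_top_iff_one _).2 (by simpa using M.add_mem hεM h7))
  obtain ⟨M, hM⟩ := Ideal.exists_maximal R
  have hloc : IsLocalRing R := IsLocalRing.of_unique_max_ideal ⟨M, hM, fun M' hM' =>
    huniq M' M hM' hM⟩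
  have := hM.isPrime
  have hD := h1 M (hmax M hM)
  have hMeq : M = IsLocalRing.maximalIdeal R := IsLocalRing.eq_maximalIdeal hM
  have hle : M.primeCompl ≤ IsUnit.submonoid R := by
    intro x hx
    by_contra hcon
    apply hx
    rw [hMeq]
    exact hcon
  exact IsDiscreteValuationRing.RingEquivClass.isDiscreteValuationRing
    (IsLocalization.atUnits R M.primeCompl (S := Localization.AtPrime M) hle).symm

end

end Pool.Agent.H48
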