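import Pool.Agent.H48.Dfn

/-!
# Power series over complete domains
-/

set_option autoImplicit false

namespace Pool.Agent.H48

open Finset FirstOrder FirstOrder.Ring
open scoped PowerSeries

section prime

variable {D : Type} [CommRing D] [IsDomain D]

theorem dv_of_prime {π : D} (hπ : Prime π) (hfin : ∀ a : D, a ≠ 0 → ∃ n : ℕ, ¬ π ^ n ∣ a) :
    Dv (Ideal.span {π}) π := by
  refine ⟨(Ideal.span_singleton_prime hπ.ne_zero).2 hπ, Ideal.mem_span_singleton_self _,
    fun a ha => ?_⟩
  obtain ⟨n, hn⟩ := hfin a ha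
  have h1 : FiniteMultiplicity π a := ⟨n, fun h => hn ((pow_dvd_pow _ (Nat.le_succ n)).trans h)⟩
  obtain ⟨c, hc1, hc2⟩ := h1.exists_eq_pow_mul_and_not_dvd
  refine ⟨multiplicity π a, c, 1, fun h => hc2 (Ideal.mem_span_singleton.1 h),
    fun h => hπ.not_isUnit (isUnit_of_dvd_one (Ideal.mem_span_singleton.1 h)), ?_⟩
  rw [mul_one, mul_comm c]
  exact hc1

end prime

section xadic

variable {A : Type} [CommRing A]

theorem isAdicComplete_X : IsAdicComplete (Ideal.span {(PowerSeries.X : A⟦X⟧)}) A⟦X⟧ := by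
  have key : ∀ (n : ℕ) (f g : A⟦X⟧),
      f ≡ g [SMOD ((Ideal.span {(PowerSeries.X : A⟦X⟧)}) ^ n • ⊤ : Submodule A⟦X⟧ A⟦X⟧)] ↔
        ∀ m < n, PowerSeries.coeff m f = PowerSeries.coeff m g := by
    intro n f g
    rw [SModEq.sub_mem, smul_eq_mul, Ideal.mul_top, Ideal.span_singleton_pow,
      Ideal.mem_span_singleton, PowerSeries.X_pow_dvd_iff]
    simp only [map_sub, sub_eq_zero]
  refine { haus' := fun f hf => ?_, prec' := fun f hf => ?_ }
  · ext m
    have := (key (m + 1) f 0).1 (hf (m + 1)) m (Nat.lt_succ_self m)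
    simpa using this
  · refine ⟨PowerSeries.mk fun m => PowerSeries.coeff m (f (m + 1)), fun n => ?_⟩
    rw [key]
    intro m hm
    rw [PowerSeries.coeff_mk]
    exact ((key _ _ _).1 (hf (show m + 1 ≤ n from hm)) m (Nat.lt_succ_self m)).symm

theorem henselian_X : HenselianRing A⟦X⟧ (Ideal.span {(PowerSeries.X : A⟦X⟧)}) := by
  have := isAdicComplete_X (A := A)
  infer_instance

end xadic

section complete

variable {B : Type} [CommRing B] [IsDomain B] (J : Ideal B) [IsAdicComplete J B]

theorem ne_top_of_complete : J ≠ ⊤ := by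
  rintro rfl
  have : IsHausdorff (⊤ : Ideal B) B := IsAdicComplete.toIsHausdorff
  have := this.subsingleton
  exact zero_ne_one (Subsingleton.elim (0 : B) 1)

theorem eq_zero_of_forall_mem_pow {x : B} (h : ∀ n : ℕ, x ∈ J ^ n) : x = 0 := by
  have : IsHausdorff J B := IsAdicComplete.toIsHausdorff
  refine IsHausdorff.haus' (I := J) x fun n => ?_
  rw [SModEq.zero, smul_eq_mul, Ideal.mul_top]
  exact h n

variable {J} {c : B} (hc : c ∈ J)

/-- the linear polynomial -/
noncomputable abbrev lin (c : B) : B⟦X⟧ := PowerSeries.X - PowerSeries.C c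

theorem lin_coe : ((Polynomial.X - Polynomial.C c : Polynomial B) : B⟦X⟧) = lin c := by
  simp [lin]

include hc

theorem lin_dist : (Polynomial.X - Polynomial.C c).IsDistinguishedAt J := by
  refine ⟨⟨fun {n} hn => ?_⟩, Polynomial.monic_X_sub_C c⟩
  rw [Polynomial.natDegree_X_sub_C] at hn
  have : n = 0 := by omega
  subst this
  simpa using J.neg_mem hc

theorem lin_order : (((Polynomial.X - Polynomial.C c : Polynomial B) : B⟦X⟧).map
    (Ideal.Quotient.mk J)).order.toNat = 1 := by
  have h1 : (((Polynomial.X - Polynomial.C c : Polynomial B) : B⟦X⟧).map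
    (Ideal.Quotient.mk J)) = PowerSeries.X := by
    have : Ideal.Quotient.mk J c = 0 := Ideal.Quotient.eq_zero_iff_mem.2 hc
    simp [this]
  have : Nontrivial (B ⧸ J) := Ideal.Quotient.nontrivial_iff.2 (ne_top_of_complete J)
  rw [h1, PowerSeries.order_X]
  rfl

theorem lin_div (f : B⟦X⟧) : ∃ (q : B⟦X⟧) (α : B), f = lin c * q + PowerSeries.C α := by
  have H := (lin_dist hc).isWeierstrassDivisorAt'
  have h1 := H.isWeierstrassDivisionAt_div_mod f
  obtain ⟨h2, h3⟩ := h1
  rw [lin_order hc] at h2
  have h4 : (H.mod f).natDegree = 0 := by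
    by_contra hne
    have h5 := Polynomial.degree_eq_natDegree (p := H.mod f) (by
      rintro h0
      rw [h0] at hne
      simp at hne)
    rw [h5] at h2
    have : (H.mod f).natDegree < 1 := by exact_mod_cast h2
    omega
  obtain ⟨α, hα⟩ := Polynomial.natDegree_eq_zero.1 h4
  refine ⟨H.div f, α, ?_⟩
  rw [← lin_coe, ← Polynomial.coe_C, hα]
  exact h3

theorem const_of_lin_dvd {α : B} (h : lin c ∣ PowerSeries.C α) : α = 0 := by
  obtain ⟨q, hq⟩ := h
  have H := (lin_dist hc).isWeierstrassDivisorAt'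
  have h1 := H.eq_zero_of_mul_eq (q := q) (r := Polynomial.C α) (by
    rw [lin_order hc]
    exact lt_of_le_of_lt Polynomial.degree_C_le (by norm_num)) (by
    rw [lin_coe, Polynomial.coe_C, hq])
  simpa using h1.2

theorem lin_not_unit : ¬ IsUnit (lin c) := by
  intro h
  rw [PowerSeries.isUnit_iff_constantCoeff] at h
  simp only [map_sub, PowerSeries.constantCoeff_X, PowerSeries.constantCoeff_C, zero_sub,
    IsUnit.neg_iff] at h
  exact ne_top_of_complete J (J.eq_top_of_isUnit_mem hc h)

theorem lin_ne_zero : lin c ≠ 0 := by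
  intro h
  have := congrArg (PowerSeries.coeff 1) h
  simp [PowerSeries.coeff_C] at this

theorem lin_prime : Prime (lin c) := by
  refine ⟨lin_ne_zero hc, lin_not_unit hc, fun f g hfg => ?_⟩
  obtain ⟨q1, α, hf⟩ := lin_div hc f
  obtain ⟨q2, β, hg⟩ := lin_div hc g
  have h1 : lin c ∣ PowerSeries.C (α * β) := by
    have : PowerSeries.C (α * β) = f * g - lin c * (q1 * g + PowerSeries.C α * q2) := by
      rw [map_mul]
      calc PowerSeries.C α * PowerSeries.C β = (f - lin c * q1) * (g - lin c * q2) := by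
            rw [hf, hg]; ring
        _ = f * g - lin c * (q1 * g + (f - lin c * q1) * q2) := by ring
        _ = _ := by
          have : f - lin c * q1 = PowerSeries.C α := by rw [hf]; ring
          rw [this]
    rw [this]
    exact dvd_sub hfg (dvd_mul_right _ _)
  rcases mul_eq_zero.1 (const_of_lin_dvd hc h1) with h | h
  · left
    rw [hf, h, map_zero, add_zero]
    exact dvd_mul_right _ _
  · right
    rw [hg, h, map_zero, add_zero]
    exact dvd_mul_right _ _

theorem lin_not_dvd {c' : B} (hne : c ≠ c') : ¬ lin c ∣ lin c' := by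
  intro h
  have h1 : lin c ∣ PowerSeries.C (c - c') := by
    have : PowerSeries.C (c - c') = lin c' - lin c := by
      rw [map_sub]; ring
    rw [this]
    exact dvd_sub h dvd_rfl
  exact hne (sub_eq_zero.1 (const_of_lin_dvd hc h1))

theorem lin_finite (f : B⟦X⟧) (hf : f ≠ 0) : ∃ n : ℕ, ¬ lin c ^ n ∣ f := by
  by_contra hcon
  push Not at hcon
  have hX : ∀ k : ℕ, ∃ g : B⟦X⟧, f = PowerSeries.X ^ k * g ∧ ∀ n, lin c ^ n ∣ g := by
    intro k
    induction k with
    | zero => exact ⟨f, by simp, hcon⟩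
    | succ k ih =>
      obtain ⟨g, hg1, hg2⟩ := ih
      have h0 : PowerSeries.constantCoeff g = 0 := by
        apply eq_zero_of_forall_mem_pow J
        intro n
        obtain ⟨h, hh⟩ := hg2 n
        rw [hh]
        simp only [map_mul, map_pow, map_sub, PowerSeries.constantCoeff_X,
          PowerSeries.constantCoeff_C, zero_sub]
        exact Ideal.mul_mem_right _ _ (Ideal.pow_mem_pow (J.neg_mem hc) n)
      rw [← PowerSeries.X_dvd_iff] at h0
      obtain ⟨g', rfl⟩ := h0
      refine ⟨g', by rw [hg1, pow_succ]; ring, fun n => ?_⟩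
      by_cases hc0 : c = 0
      · have h2 := hg2 (n + 1)
        subst hc0
        have e : lin (0 : B) = PowerSeries.X := by simp [lin]
        rw [e, pow_succ'] at h2
        rw [e]
        exact (mul_dvd_mul_iff_left PowerSeries.X_ne_zero).1 h2
      · refine (lin_prime hc).pow_dvd_of_dvd_mul_left n (fun h => ?_) (hg2 n)
        apply hc0
        apply const_of_lin_dvd hc
        have : PowerSeries.C c = PowerSeries.X - lin c := by simp [lin]
        rw [this]
        exact dvd_sub h dvd_rfl
  apply hf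
  ext k
  obtain ⟨g, hg, -⟩ := hX (k + 1)
  rw [hg, map_zero]
  exact (PowerSeries.X_pow_dvd_iff.1 (dvd_mul_right _ _)) k (Nat.lt_succ_self k)

theorem lin_dv : Dv (Ideal.span {lin c}) (lin c) :=
  dv_of_prime (lin_prime hc) (lin_finite hc)

end complete

/-- **Subrings of rings of power series.** -/
theorem not_nip_of_powerSeries (B : Type) [CommRing B] [IsDomain B]
    (J : Ideal B) [IsAdicComplete J B] (R : Type) [CommRing R] (χ : R →+* B⟦X⟧)
    (hχ : Function.Injective χ) (I : Ideal R) (hI : I ≠ ⊥) [HenselianRing R I]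
    (hc : ∀ N : ℕ, ∃ (c : Fin N → B) (r : Fin N → R), Function.Injective c ∧ (∀ i, c i ∈ J) ∧
      ∀ i, χ (r i) = lin (c i))
    (K : Type) [Field K] [Algebra R K]
    [IsFractionRing R K] (L : Type) [Field L] [Algebra K L] [FiniteDimensional K L]
    [CompatibleRing L] : ¬ NIPField L := by
  have hdom : IsDomain R := hχ.isDomain
  let F := FractionRing B⟦X⟧
  have hg : Function.Injective ((algebraMap B⟦X⟧ F).comp χ) :=
    (IsFractionRing.injective B⟦X⟧ F).comp hχ
  let ψ : K →+* F := IsFractionRing.lift hg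
  have hψ : ∀ r : R, ψ (algebraMap R K r) = algebraMap B⟦X⟧ F (χ r) :=
    fun r => IsFractionRing.lift_algebraMap hg r
  refine not_nip R (algebraMap R K) (IsFractionRing.injective _ _) I hI
    (fun q hq => rootIdeal_of_henselian I _ hq) fun N => ?_
  obtain ⟨c, r, hinj, hmem, hr⟩ := hc N
  refine ⟨r, fun i =>
    (dvRing F (lin_dv (hmem i)) (lin_ne_zero (hmem i))).ValueGroup, fun i => inferInstance,
    fun i => (dvRing F (lin_dv (hmem i)) (lin_ne_zero (hmem i))).valuation.comap ψ, ?_, ?_, ?_⟩
  · intro i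
    have hd := dv_isDisc (K := F) (lin_dv (hmem i)) (lin_ne_zero (hmem i))
    have e : ψ (algebraMap R K (r i)) = algebraMap B⟦X⟧ F (lin (c i)) := by
      rw [hψ, hr]
    refine ⟨?_, ?_, fun x hx => ?_⟩
    · intro h0
      rw [h0, map_zero] at e
      exact hd.ne_zero e.symm
    · rw [Valuation.comap_apply, e]
      exact hd.lt_one
    · rw [Valuation.comap_apply, Valuation.comap_apply, e]
      exact hd.exists_zpow _ (by rwa [Ne, map_eq_zero])
  · intro i r
    rw [Valuation.comap_apply, hψ]
    exact dv_le_one _ _ _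
  · intro i j hij
    rw [Valuation.comap_apply, hψ, hr]
    apply dv_eq_one
    rw [Ideal.mem_span_singleton]
    exact lin_not_dvd (hmem i) (fun h => hij (hinj h))

theorem powers_injective {A B : Type} [CommRing A] [IsDomain A] [CommRing B] [IsDomain B]
    (J : Ideal B) [IsAdicComplete J B] (φ : A →+* B) (hφ : Function.Injective φ)
    (a : A) (ha : a ≠ 0) (haJ : φ a ∈ J) :
    (∀ i : ℕ, φ (a ^ (i + 1)) ∈ J) ∧ Function.Injective fun i : ℕ => φ (a ^ (i + 1)) := by
  refine ⟨fun i => by
    rw [map_pow, pow_succ]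
    exact J.mul_mem_left _ haJ, ?_⟩
  have key : ∀ i j : ℕ, i < j → φ (a ^ (i + 1)) ≠ φ (a ^ (j + 1)) := by
    intro i j hij h
    have h1 := hφ h
    have h2 : a ^ (i + 1) * (1 - a ^ (j - i)) = 0 := by
      rw [mul_sub, mul_one, ← pow_add, show i + 1 + (j - i) = j + 1 by omega, h1, sub_self]
    rcases mul_eq_zero.1 h2 with h3 | h3
    · exact ha (pow_eq_zero_iff (by omega) |>.1 h3)
    · have h4 : (1 : B) = φ a ^ (j - i) := by
        rw [← map_pow, ← sub_eq_zero.1 h3, map_one]
      apply ne_top_of_complete J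
      rw [Ideal.eq_top_iff_one, h4]
      exact J.pow_mem_of_mem haJ _ (by omega)
  intro i j hij
  rcases lt_trichotomy i j with h | h | h
  · exact absurd hij (key i j h)
  · exact h
  · exact absurd hij.symm (key j i h)

/-- **Power series.** -/
theorem not_nip_powerSeries (A B : Type) [CommRing A] [IsDomain A] [CommRing B] [IsDomain B]
    (J : Ideal B) [IsAdicComplete J B] (φ : A →+* B) (hφ : Function.Injective φ)
    (a : A) (ha : a ≠ 0) (haJ : φ a ∈ J) (K : Type) [Field K] [Algebra A⟦X⟧ K]
    [IsFractionRing A⟦X⟧ K] (L : Type) [Field L] [Algebra K L] [FiniteDimensional K L]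
    [CompatibleRing L] : ¬ NIPField L := by
  have hmap : Function.Injective (PowerSeries.map φ) := by
    intro f g hfg
    ext n
    apply hφ
    have := congrArg (PowerSeries.coeff n) hfg
    simpa using this
  have := henselian_X (A := A)
  obtain ⟨hmem, hinj⟩ := powers_injective J φ hφ a ha haJ
  refine not_nip_of_powerSeries B J A⟦X⟧ (PowerSeries.map φ) hmap
    (Ideal.span {(PowerSeries.X : A⟦X⟧)}) (by
      rw [Ne, Ideal.span_singleton_eq_bot]
      exact PowerSeries.X_ne_zero) (fun N => ?_) K L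
  refine ⟨fun i => φ (a ^ ((i : ℕ) + 1)), fun i => lin (a ^ ((i : ℕ) + 1)),
    fun i j h => Fin.ext (hinj h), fun i => hmem i, fun i => ?_⟩
  simp [lin]

end Pool.Agent.H48
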