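import Pool.Agent.H48.Pow

/-!
# Restricted power series
-/

set_option autoImplicit false

namespace Pool.Agent.H48

open Finset FirstOrder FirstOrder.Ring
open scoped PowerSeries

variable {B : Type} [CommRing B]

/-- The ring `B⟨X⟩` of restricted power series: the power series which are congruent to polynomials
modulo all powers of `ϖ`. -/
def tate (ϖ : B) : Subring B⟦X⟧ where
  carrier := {f | ∀ n : ℕ, ∃ p : Polynomial B, PowerSeries.C ϖ ^ n ∣ f - (p : B⟦X⟧)}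
  mul_mem' := by
    intro f g hf hg n
    obtain ⟨p, r, hp⟩ := hf n
    obtain ⟨q, s, hq⟩ := hg n
    refine ⟨p * q, r * g + p * s, ?_⟩
    rw [Polynomial.coe_mul]
    calc f * g - (p : B⟦X⟧) * q = (f - p) * g + p * (g - q) := by ring
      _ = _ := by rw [hp, hq]; ring
  one_mem' := fun n => ⟨1, by simp⟩
  add_mem' := by
    intro f g hf hg n
    obtain ⟨p, hp⟩ := hf n
    obtain ⟨q, hq⟩ := hg n
    refine ⟨p + q, ?_⟩
    rw [Polynomial.coe_add]
    have : f + g - ((p : B⟦X⟧) + q) = (f - p) + (g - q) := by ring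
    rw [this]
    exact dvd_add hp hq
  zero_mem' := fun n => ⟨0, by simp⟩
  neg_mem' := by
    intro f hf n
    obtain ⟨p, hp⟩ := hf n
    refine ⟨-p, ?_⟩
    have : -f - ((-p : Polynomial B) : B⟦X⟧) = -(f - p) := by
      rw [Polynomial.coe_neg]; ring
    rw [this]
    exact (dvd_neg).2 hp

theorem mem_tate {ϖ : B} {f : B⟦X⟧} : f ∈ tate ϖ ↔
    ∀ n : ℕ, ∃ p : Polynomial B, PowerSeries.C ϖ ^ n ∣ f - (p : B⟦X⟧) := Iff.rfl

theorem coe_mem_tate (ϖ : B) (p : Polynomial B) : (p : B⟦X⟧) ∈ tate ϖ := fun n => ⟨p, by simp⟩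

theorem C_mem_tate (ϖ b : B) : PowerSeries.C b ∈ tate ϖ := by
  rw [← Polynomial.coe_C]
  exact coe_mem_tate ϖ _

theorem X_mem_tate (ϖ : B) : (PowerSeries.X : B⟦X⟧) ∈ tate ϖ := by
  rw [← Polynomial.coe_X]
  exact coe_mem_tate ϖ _

/-- the element `ϖ` of the ring of restricted power series -/
noncomputable def vt (ϖ : B) : tate ϖ := ⟨PowerSeries.C ϖ, C_mem_tate ϖ ϖ⟩

theorem C_pow_dvd {ϖ : B} {n : ℕ} {f : B⟦X⟧} :
    PowerSeries.C ϖ ^ n ∣ f ↔ ∀ i, ϖ ^ n ∣ PowerSeries.coeff i f := by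
  rw [← map_pow]
  constructor
  · rintro ⟨g, rfl⟩ i
    rw [PowerSeries.coeff_C_mul]
    exact dvd_mul_right _ _
  · intro h
    choose g hg using h
    refine ⟨PowerSeries.mk g, ?_⟩
    ext i
    rw [PowerSeries.coeff_C_mul, PowerSeries.coeff_mk, hg]

variable [IsDomain B]

/-- division by powers of `ϖ` -/
theorem mem_tate_of_mul {ϖ : B} (h0 : ϖ ≠ 0) {n : ℕ} {h : B⟦X⟧}
    (hh : PowerSeries.C ϖ ^ n * h ∈ tate ϖ) : h ∈ tate ϖ := by
  classical
  intro k
  obtain ⟨p, hp⟩ := hh (n + k)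
  have h1 : ∀ i, ϖ ^ n ∣ p.coeff i := by
    intro i
    have h2 := C_pow_dvd.1 hp i
    rw [map_sub, ← map_pow, PowerSeries.coeff_C_mul, Polynomial.coeff_coe] at h2
    have h3 : ϖ ^ n ∣ ϖ ^ n * PowerSeries.coeff i h - p.coeff i :=
      (pow_dvd_pow ϖ (Nat.le_add_right n k)).trans h2
    have := dvd_sub (dvd_mul_right (ϖ ^ n) (PowerSeries.coeff i h)) h3
    simpa using this
  have h4 : Polynomial.C (ϖ ^ n) ∣ p := (Polynomial.C_dvd_iff_dvd_coeff _ _).2 h1
  obtain ⟨q, rfl⟩ := h4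
  refine ⟨q, ?_⟩
  have hne : (PowerSeries.C ϖ : B⟦X⟧) ^ n ≠ 0 := by
    apply pow_ne_zero
    rw [Ne, map_eq_zero_iff _ PowerSeries.C_injective]
    exact h0
  rw [← mul_dvd_mul_iff_left hne, ← pow_add]
  have e : (PowerSeries.C ϖ : B⟦X⟧) ^ n * (h - q) =
      PowerSeries.C ϖ ^ n * h - ((Polynomial.C (ϖ ^ n) * q : Polynomial B) : B⟦X⟧) := by
    rw [Polynomial.coe_mul, Polynomial.coe_C, map_pow]
    ring
  rw [e]
  exact hp

theorem smod_tate {ϖ : B} (h0 : ϖ ≠ 0) (n : ℕ) (f g : tate ϖ) :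
    f ≡ g [SMOD ((Ideal.span {vt ϖ}) ^ n • ⊤ : Submodule (tate ϖ) (tate ϖ))] ↔
      PowerSeries.C ϖ ^ n ∣ (f : B⟦X⟧) - g := by
  rw [SModEq.sub_mem, smul_eq_mul, Ideal.mul_top, Ideal.span_singleton_pow,
    Ideal.mem_span_singleton]
  constructor
  · rintro ⟨h, hh⟩
    refine ⟨h, ?_⟩
    have := congrArg (Subtype.val) hh
    simpa [vt] using this
  · rintro ⟨h, hh⟩
    have h1 : h ∈ tate ϖ := by
      apply mem_tate_of_mul h0 (n := n)
      rw [← hh]
      exact (tate ϖ).sub_mem f.2 g.2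
    refine ⟨⟨h, h1⟩, ?_⟩
    apply Subtype.ext
    simpa [vt] using hh

theorem isAdicComplete_tate {ϖ : B} (h0 : ϖ ≠ 0) [IsAdicComplete (Ideal.span {ϖ}) B] :
    IsAdicComplete (Ideal.span {vt ϖ}) (tate ϖ) := by
  have hH : IsHausdorff (Ideal.span {ϖ}) B := IsAdicComplete.toIsHausdorff
  have hP : IsPrecomplete (Ideal.span {ϖ}) B := IsAdicComplete.toIsPrecomplete
  have key : ∀ (n : ℕ) (x y : B),
      x ≡ y [SMOD ((Ideal.span {ϖ}) ^ n • ⊤ : Submodule B B)] ↔ ϖ ^ n ∣ x - y := by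
    intro n x y
    rw [SModEq.sub_mem, smul_eq_mul, Ideal.mul_top, Ideal.span_singleton_pow,
      Ideal.mem_span_singleton]
  refine { haus' := fun f hf => ?_, prec' := fun f hf => ?_ }
  · apply Subtype.ext
    ext i
    have h1 : ∀ n, ϖ ^ n ∣ PowerSeries.coeff i (f : B⟦X⟧) := by
      intro n
      have := (smod_tate h0 n f 0).1 (hf n)
      have := C_pow_dvd.1 this i
      simpa using this
    have h2 : PowerSeries.coeff i (f : B⟦X⟧) = 0 := by
      apply hH.haus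
      intro n
      rw [key]
      simpa using h1 n
    rw [h2]
    rfl
  · have hf' : ∀ {m n}, m ≤ n → PowerSeries.C ϖ ^ m ∣ ((f m : tate ϖ) : B⟦X⟧) - f n :=
      fun {m n} hmn => (smod_tate h0 m _ _).1 (hf hmn)
    have hlim : ∀ i, ∃ b : B, ∀ n, PowerSeries.coeff i ((f n : tate ϖ) : B⟦X⟧) ≡ b
        [SMOD ((Ideal.span {ϖ}) ^ n • ⊤ : Submodule B B)] := by
      intro i
      apply hP.prec
      intro m n hmn
      rw [key]
      have := C_pow_dvd.1 (hf' hmn) i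
      simpa using this
    choose b hb using hlim
    have hdiff : ∀ n, PowerSeries.C ϖ ^ n ∣ ((f n : tate ϖ) : B⟦X⟧) - PowerSeries.mk b := by
      intro n
      rw [C_pow_dvd]
      intro i
      rw [map_sub, PowerSeries.coeff_mk]
      exact (key _ _ _).1 (hb i n)
    have hmem : PowerSeries.mk b ∈ tate ϖ := by
      intro n
      obtain ⟨p, hp⟩ := (f n).2 n
      refine ⟨p, ?_⟩
      have : PowerSeries.mk b - (p : B⟦X⟧) =
          (((f n : tate ϖ) : B⟦X⟧) - p) - (((f n : tate ϖ) : B⟦X⟧) - PowerSeries.mk b) := by ring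
      rw [this]
      exact dvd_sub hp (hdiff n)
    refine ⟨⟨_, hmem⟩, fun n => ?_⟩
    rw [smod_tate h0]
    exact hdiff n

/-- **Restricted power series.** -/
theorem not_nip_tate (ϖ : B) (h0 : ϖ ≠ 0) [IsAdicComplete (Ideal.span {ϖ}) B]
    (K : Type) [Field K] [Algebra (tate ϖ) K]
    [IsFractionRing (tate ϖ) K] (L : Type) [Field L] [Algebra K L] [FiniteDimensional K L]
    [CompatibleRing L] : ¬ NIPField L := by
  have hc := isAdicComplete_tate h0
  have hh : HenselianRing (tate ϖ) (Ideal.span {vt ϖ}) := inferInstance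
  obtain ⟨hmem, hinj⟩ := powers_injective (Ideal.span {ϖ}) (RingHom.id B) Function.injective_id
    ϖ h0 (Ideal.mem_span_singleton_self ϖ)
  refine not_nip_of_powerSeries B (Ideal.span {ϖ}) (tate ϖ) (tate ϖ).subtype
    Subtype.val_injective (Ideal.span {vt ϖ}) (by
      rw [Ne, Ideal.span_singleton_eq_bot]
      intro h
      have h1 := congrArg Subtype.val h
      apply h0
      rw [← map_eq_zero_iff _ (PowerSeries.C_injective (R := B))]
      exact h1) (fun N => ?_) K L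
  refine ⟨fun i => ϖ ^ ((i : ℕ) + 1), fun i => ⟨lin (ϖ ^ ((i : ℕ) + 1)),
    (tate ϖ).sub_mem (X_mem_tate ϖ) (C_mem_tate ϖ _)⟩,
    fun i j h => Fin.ext (hinj h), fun i => hmem i, fun i => rfl⟩

end Pool.Agent.H48
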